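import Mathlib

/-!
# Concrete singular chains with rational coefficients

`Chain T n` is the vector space of singular `n`-chains of `T`, `bd` the boundary, `Ch A n` the
chains in the subset `A`, `deg` the augmentation and `mapC f` the chain map of `f`.
-/

set_option autoImplicit false

open Set

namespace Pool.Agent.Lib.MP_ee7b66_ag.Top

/-- the standard simplex -/
abbrev Sx (n : ℕ) : Type := stdSimplex ℝ (Fin (n + 1))

/-- the `i`-th face map -/
noncomputable def face (n : ℕ) (i : Fin (n + 2)) : C(Sx n, Sx (n + 1)) :=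
  ⟨stdSimplex.map (Fin.succAbove i), stdSimplex.continuous_map _⟩

/-- singular chains with rational coefficients -/
abbrev Chain (T : Type*) [TopologicalSpace T] (n : ℕ) : Type _ := C(Sx n, T) →₀ ℚ

section

variable {T T' T'' : Type*} [TopologicalSpace T] [TopologicalSpace T'] [TopologicalSpace T'']

/-- the boundary of a simplex -/
noncomputable def bdS {n : ℕ} (σ : C(Sx (n + 1), T)) : Chain T n :=
  ∑ i : Fin (n + 2), (-1 : ℚ) ^ (i : ℕ) • Finsupp.single (σ.comp (face n i)) 1

/-- the boundary -/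
noncomputable def bd {n : ℕ} : Chain T (n + 1) →ₗ[ℚ] Chain T n :=
  Finsupp.linearCombination ℚ bdS

/-- the chain map of a continuous map -/
noncomputable def mapC (f : C(T, T')) {n : ℕ} : Chain T n →ₗ[ℚ] Chain T' n :=
  Finsupp.lmapDomain ℚ ℚ fun σ => f.comp σ

/-- the chains in the subset `A` -/
noncomputable def Ch (A : Set T) (n : ℕ) : Submodule ℚ (Chain T n) :=
  Finsupp.supported ℚ ℚ {σ | ∀ x, σ x ∈ A}

/-- the augmentation -/
noncomputable def deg : Chain T 0 →ₗ[ℚ] ℚ :=
  Finsupp.linearCombination ℚ fun _ => (1 : ℚ)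

@[simp] theorem bd_single {n : ℕ} (σ : C(Sx (n + 1), T)) (c : ℚ) :
    bd (Finsupp.single σ c) = c • bdS σ := Finsupp.linearCombination_single _ _ _

@[simp] theorem mapC_single (f : C(T, T')) {n : ℕ} (σ : C(Sx n, T)) (c : ℚ) :
    mapC f (Finsupp.single σ c) = Finsupp.single (f.comp σ) c := Finsupp.mapDomain_single

@[simp] theorem deg_single (σ : C(Sx 0, T)) (c : ℚ) : deg (Finsupp.single σ c) = c := by
  simp [deg, Finsupp.linearCombination_single]

/-- induction on chains -/
theorem chain_induction {n : ℕ} {p : Chain T n → Prop} (z : Chain T n) (h0 : p 0)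
    (h : ∀ σ c z, p z → p (Finsupp.single σ c + z)) : p z := by
  induction z using Finsupp.induction_linear with
  | zero => exact h0
  | add f g hf hg =>
    clear hf
    induction f using Finsupp.induction with
    | zero => simpa using hg
    | single_add σ c f _ _ ih => rw [add_assoc]; exact h _ _ _ ih
  | single σ c => simpa using h σ c 0 h0

theorem hom_ext {n : ℕ} {M : Type*} [AddCommGroup M] [Module ℚ M] {f g : Chain T n →ₗ[ℚ] M}
    (h : ∀ σ, f (Finsupp.single σ 1) = g (Finsupp.single σ 1)) : f = g := by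
  apply Finsupp.lhom_ext
  intro σ c
  have : Finsupp.single σ c = c • (Finsupp.single σ (1 : ℚ)) := by simp
  rw [this, map_smul, map_smul, h]

theorem mapC_bd (f : C(T, T')) {n : ℕ} (z : Chain T (n + 1)) :
    mapC f (bd z) = bd (mapC f z) := by
  have : (mapC f).comp (bd (T := T) (n := n)) = bd.comp (mapC f) := by
    apply hom_ext
    intro σ
    simp [bdS, map_sum, ContinuousMap.comp_assoc]
  exact LinearMap.congr_fun this z

theorem mapC_comp (g : C(T', T'')) (f : C(T, T')) {n : ℕ} (z : Chain T n) :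
    mapC g (mapC f z) = mapC (g.comp f) z := by
  have : (mapC g).comp (mapC f (n := n)) = mapC (g.comp f) := by
    apply hom_ext
    intro σ
    simp [ContinuousMap.comp_assoc]
  exact LinearMap.congr_fun this z

@[simp] theorem mapC_id {n : ℕ} (z : Chain T n) : mapC (ContinuousMap.id T) z = z := by
  have : mapC (ContinuousMap.id T) (n := n) = LinearMap.id := by
    apply hom_ext
    intro σ
    simp
  exact LinearMap.congr_fun this z

@[simp] theorem deg_mapC (f : C(T, T')) (z : Chain T 0) : deg (mapC f z) = deg z := by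
  have : deg.comp (mapC f (n := 0)) = deg := by
    apply hom_ext
    intro σ
    simp
  exact LinearMap.congr_fun this z

theorem face_face (n : ℕ) (i : Fin (n + 3)) (j : Fin (n + 2)) :
    (face (n + 1) i).comp (face n j) =
      ⟨stdSimplex.map (fun k => Fin.succAbove i (Fin.succAbove j k)),
        stdSimplex.continuous_map _⟩ := by
  ext x : 1
  simp only [face, ContinuousMap.comp_apply, ContinuousMap.coe_mk, stdSimplex.map_comp_apply]
  rfl

theorem succAbove_comm {n : ℕ} (i : Fin (n + 2)) (j : Fin (n + 3)) (h : (j : ℕ) ≤ i)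
    (k : Fin (n + 1)) :
    Fin.succAbove j (Fin.succAbove i k) =
      Fin.succAbove i.succ (Fin.succAbove (Fin.castLT j (lt_of_le_of_lt h i.2)) k) := by
  have hv : ∀ (m : ℕ) (a : Fin (m + 1)) (b : Fin m),
      ((Fin.succAbove a b : Fin (m + 1)) : ℕ) = if (b : ℕ) < a then (b : ℕ) else b + 1 := by
    intro m a b
    simp only [Fin.succAbove, Fin.lt_def, Fin.val_castSucc]
    split_ifs <;> simp
  ext
  simp only [hv, Fin.val_succ, Fin.val_castLT]
  split_ifs <;> omega

theorem bd_bdS {n : ℕ} (σ : C(Sx (n + 2), T)) : bd (bdS σ) = 0 := by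
  have h1 : bd (bdS σ) = ∑ ij : Fin (n + 2) × Fin (n + 3),
      ((-1 : ℚ) ^ (ij.1 : ℕ) * (-1 : ℚ) ^ (ij.2 : ℕ)) •
        (Finsupp.single (σ.comp ((face (n + 1) ij.2).comp (face n ij.1))) 1 : Chain T n) := by
    rw [Fintype.sum_prod_type, Finset.sum_comm]
    rw [bdS, map_sum]
    refine Finset.sum_congr rfl fun j _ => ?_
    rw [map_smul, bd_single, one_smul, bdS, Finset.smul_sum]
    refine Finset.sum_congr rfl fun i _ => ?_
    rw [smul_smul, mul_comm, ContinuousMap.comp_assoc]
  rw [h1]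
  let P := Fin (n + 2) × Fin (n + 3)
  let S : Finset P := {ij : P | (ij.2 : ℕ) ≤ (ij.1 : ℕ)}
  rw [← Finset.sum_add_sum_compl S, ← eq_neg_iff_add_eq_zero, ← Finset.sum_neg_distrib]
  let φ : ∀ ij : P, ij ∈ S → P := fun ij hij =>
    (Fin.castLT ij.2 (lt_of_le_of_lt (Finset.mem_filter.mp hij).right (Fin.is_lt ij.1)), ij.1.succ)
  apply Finset.sum_bij φ
  · intro ij hij
    simp_rw [S, φ, Finset.compl_filter, Finset.mem_filter_univ, Fin.val_succ,
      Fin.val_castLT] at hij ⊢
    omega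
  · rintro ⟨i, j⟩ hij ⟨i', j'⟩ hij' h
    rw [Prod.mk_inj]
    exact ⟨by simpa [φ] using! congr_arg Prod.snd h,
      by simpa [φ, Fin.castSucc_castLT] using! congr_arg Fin.castSucc (congr_arg Prod.fst h)⟩
  · rintro ⟨i', j'⟩ hij'
    simp_rw [S, Finset.compl_filter, Finset.mem_filter_univ, not_le] at hij'
    refine ⟨(j'.pred <| ?_, Fin.castSucc i'), ?_, ?_⟩
    · rintro rfl
      simp only [Fin.val_zero, not_lt_zero] at hij'
    · simpa [S] using! Nat.le_sub_one_of_lt hij'
    · simp only [φ, Fin.castLT_castSucc, Fin.succ_pred]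
  · rintro ⟨i, j⟩ hij
    have hle : (j : ℕ) ≤ i := by simpa [S] using! hij
    simp only [φ, Fin.val_succ, Fin.val_castLT]
    rw [← neg_smul]
    congr 1
    · rw [pow_succ]; ring
    · congr 2
      rw [face_face, face_face]
      congr 2
      funext k
      exact succAbove_comm i j hle k

theorem bd_bd {n : ℕ} (z : Chain T (n + 2)) : bd (bd z) = 0 := by
  have : (bd (T := T) (n := n)).comp bd = 0 := by
    apply hom_ext
    intro σ
    simp [bd_bdS]
  exact LinearMap.congr_fun this z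

@[simp] theorem deg_bd (z : Chain T 1) : deg (bd z) = 0 := by
  have : (deg (T := T)).comp bd = 0 := by
    apply hom_ext
    intro σ
    simp [bdS, Fin.sum_univ_two]
  exact LinearMap.congr_fun this z

/-! ### Chains in a subset -/

theorem single_mem {A : Set T} {n : ℕ} {σ : C(Sx n, T)} (h : ∀ x, σ x ∈ A) (c : ℚ) :
    (Finsupp.single σ c : Chain T n) ∈ Ch A n :=
  Finsupp.single_mem_supported ℚ c h

theorem mem_Ch {A : Set T} {n : ℕ} {z : Chain T n} :
    z ∈ Ch A n ↔ ∀ σ ∈ z.support, ∀ x, σ x ∈ A := by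
  rw [Ch, Finsupp.mem_supported]
  rfl

theorem Ch_eq_span (A : Set T) (n : ℕ) :
    Ch A n = Submodule.span ℚ ((fun σ => (Finsupp.single σ 1 : Chain T n)) ''
      {σ | ∀ x, σ x ∈ A}) := Finsupp.supported_eq_span_single ℚ _

/-- a linear map which sends the simplices in `A` into a submodule -/
theorem map_mem_of_single {A : Set T} {n : ℕ} {M : Type*} [AddCommGroup M] [Module ℚ M]
    (f : Chain T n →ₗ[ℚ] M) (N : Submodule ℚ M)
    (h : ∀ σ : C(Sx n, T), (∀ x, σ x ∈ A) → f (Finsupp.single σ 1) ∈ N) {z : Chain T n}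
    (hz : z ∈ Ch A n) : f z ∈ N := by
  rw [Ch_eq_span] at hz
  have : Submodule.span ℚ ((fun σ => (Finsupp.single σ 1 : Chain T n)) ''
      {σ | ∀ x, σ x ∈ A}) ≤ N.comap f := by
    rw [Submodule.span_le]
    rintro _ ⟨σ, hσ, rfl⟩
    exact h σ hσ
  exact this hz

theorem Ch_mono {A B : Set T} (h : A ⊆ B) (n : ℕ) : Ch A n ≤ Ch B n :=
  Finsupp.supported_mono fun _ hσ x => h (hσ x)

theorem Ch_inter (A B : Set T) (n : ℕ) : Ch (A ∩ B) n = Ch A n ⊓ Ch B n := by
  ext z
  simp only [Submodule.mem_inf, mem_Ch]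
  exact ⟨fun h => ⟨fun σ hσ x => (h σ hσ x).1, fun σ hσ x => (h σ hσ x).2⟩,
    fun h σ hσ x => ⟨h.1 σ hσ x, h.2 σ hσ x⟩⟩

theorem mem_Ch_inter {A B : Set T} {n : ℕ} {z : Chain T n} (h1 : z ∈ Ch A n) (h2 : z ∈ Ch B n) :
    z ∈ Ch (A ∩ B) n := by
  rw [Ch_inter]; exact ⟨h1, h2⟩

@[simp] theorem Ch_univ (n : ℕ) : Ch (Set.univ : Set T) n = ⊤ := by
  ext z
  simp [mem_Ch]

theorem bd_mem {A : Set T} {n : ℕ} {z : Chain T (n + 1)} (hz : z ∈ Ch A (n + 1)) :
    bd z ∈ Ch A n := by
  refine map_mem_of_single bd (Ch A n) ?_ hz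
  intro σ hσ
  rw [bd_single, one_smul, bdS]
  exact Submodule.sum_mem _ fun i _ => Submodule.smul_mem _ _
    (single_mem (σ := σ.comp (face n i)) (fun x => hσ _) 1)

theorem mapC_mem (f : C(T, T')) {A : Set T} {B : Set T'} (h : ∀ x ∈ A, f x ∈ B) {n : ℕ}
    {z : Chain T n} (hz : z ∈ Ch A n) : mapC f z ∈ Ch B n := by
  refine map_mem_of_single (mapC f) (Ch B n) ?_ hz
  intro σ hσ
  rw [mapC_single]
  exact single_mem (fun x => h _ (hσ x)) 1

/-- `H_{n+1}(A; ℚ) = 0` -/
def Acyc (A : Set T) (n : ℕ) : Prop :=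
  ∀ z ∈ Ch A (n + 1), bd z = 0 → ∃ w ∈ Ch A (n + 2), bd w = z

/-- every `0`-chain of degree zero of `A` bounds in `A` (that is: `A` is path connected or
empty) -/
def Conn (A : Set T) : Prop :=
  ∀ z ∈ Ch A 0, deg z = 0 → ∃ w ∈ Ch A 1, bd w = z

end

end Pool.Agent.Lib.MP_ee7b66_ag.Top
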