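import Mathlib
import Pool.Agent.Lib.MP_ee7b66_ag.Top.Basic

/-!
# The topological model of the surface

`Y` is the blow-up of `ℂ²` in eight points, `ell j` (`j : Fin 8`) are the strict transforms of
eight lines, and `X = Y ∖ ⋃ ell j`.
-/

open Set

namespace Pool.Agent.Lib.MP_ee7b66_ag.Top

/-- the affine plane -/
abbrev C2 : Type := Fin 2 → ℂ

/-- the domain of the charts around the exceptional curves -/
def Sb : Set C2 := {z | ‖z 0‖ < 1 ∧ ‖z 0 * z 1‖ < 1}

/-- the domain of the charts around the lines -/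
def Rb : Set C2 := {z | ‖z 1‖ < 1}

/-- `ℂ ∖ {0, 1}` -/
def Pants : Set ℂ := {w | w ≠ 0 ∧ w ≠ 1}

/-- the local coordinate of the projective line at the three ends `0`, `1`, `∞` of `ℂ ∖ {0, 1}` -/
noncomputable def loc : Fin 3 → ℂ → ℂ := ![fun v => v, fun v => 1 + v, fun v => v⁻¹]

/-- The data describing the blow-up `Y` of `ℂ²` in eight points and eight lines on it. -/
structure Model (Y : Type) [TopologicalSpace Y] where
  /-- the blow-down -/
  pi : C(Y, C2)
  /-- the blown up points -/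
  pt : Fin 8 → C2
  /-- the radius of the balls -/
  ε : ℝ
  hε : (0 : ℝ) < ε
  disj : ∀ (k l : Fin 8) (z : C2), (∀ i, ‖z i - pt k i‖ < ε) → (∀ i, ‖z i - pt l i‖ < ε) → k = l
  /-- the inverse of the blow-down outside the points -/
  sec : C({z : C2 // ∀ k, z ≠ pt k}, Y)
  pi_sec : ∀ z, pi (sec z) = z.1
  sec_pi : ∀ (y : Y) (h : ∀ k, pi y ≠ pt k), sec ⟨pi y, h⟩ = y
  /-- the first chart around an exceptional curve -/
  ch1 : Fin 8 → Sb → Y
  /-- the second chart around an exceptional curve -/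
  ch2 : Fin 8 → Sb → Y
  emb1 : ∀ k, Topology.IsOpenEmbedding (ch1 k)
  emb2 : ∀ k, Topology.IsOpenEmbedding (ch2 k)
  pi_ch1 : ∀ k (z : Sb), pi (ch1 k z) = ![pt k 0 + ε * z.1 0, pt k 1 + ε * (z.1 0 * z.1 1)]
  pi_ch2 : ∀ k (z : Sb), pi (ch2 k z) = ![pt k 0 + ε * (z.1 0 * z.1 1), pt k 1 + ε * z.1 0]
  cover : ∀ (k : Fin 8) (y : Y), (∀ i, ‖pi y i - pt k i‖ < ε) → y ∈ range (ch1 k) ∪ range (ch2 k)
  inter : ∀ k (z : Sb), ch1 k z ∈ range (ch2 k) ↔ z.1 1 ≠ 0
  /-- the lines -/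
  ell : Fin 8 → Set Y
  closed : ∀ j, IsClosed (ell j)
  /-- the charts around the lines -/
  tb : Fin 8 → Rb → Y
  emb : ∀ j, Topology.IsOpenEmbedding (tb j)
  tb_disj : ∀ i j, i ≠ j → Disjoint (range (tb i)) (range (tb j))
  ell_eq : ∀ j, ell j = tb j '' {z | z.1 1 = 0}
  /-- the exceptional curves without three points -/
  th : Fin 8 → C(Pants, Y)
  /-- the three lines through a point -/
  inc : Fin 8 → Fin 3 → Fin 8
  th_mem : ∀ (k : Fin 8) (w : Pants) (j : Fin 8), th k w ∉ ell j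
  near : ∀ (k : Fin 8) (i : Fin 3), ∃ (δ : ℝ) (φ : ℂ → ℂ), 0 < δ ∧ ContinuousOn φ (Metric.ball 0 δ) ∧
    (∀ v ∈ Metric.ball (0 : ℂ) δ, φ v ≠ 0) ∧ ∀ v, v ≠ 0 → v ∈ Metric.ball (0 : ℂ) δ →
      ∃ h : loc i v ∈ Pants, ∃ z : Rb, tb (inc k i) z = th k ⟨loc i v, h⟩ ∧ z.1 1 = v * φ v
  /-- the incidence matrix is invertible over `ℚ` -/
  inv : ∀ m : Fin 8 → ℚ, (∀ k, m (inc k 0) + m (inc k 1) + m (inc k 2) = 0) → m = 0

namespace Model

variable {Y : Type} [TopologicalSpace Y] (D : Model Y)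

/-- the open surface -/
def X : Set Y := {y | ∀ j, y ∉ D.ell j}

/-- the ball around an exceptional curve -/
def B (k : Fin 8) : Set Y := {y | ∀ i, ‖D.pi y i - D.pt k i‖ < D.ε}

/-- the union of the balls -/
def BB : Set Y := ⋃ k, D.B k

/-- the complement of the exceptional curves -/
def A : Set Y := {y | ∀ k, D.pi y ≠ D.pt k}

/-- the tube around a line -/
def N (j : Fin 8) : Set Y := range (D.tb j)

/-- the tube without the line -/
def Ns (j : Fin 8) : Set Y := D.tb j '' {z | z.1 1 ≠ 0}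

end Model

end Pool.Agent.Lib.MP_ee7b66_ag.Top
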