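import Pool.Agent.Lib.MP_ee7b66_ag.Top.Tuple

/-!
# Affine simplices in convex sets
-/

set_option autoImplicit false

open Set

namespace Pool.Agent.Lib.MP_ee7b66_ag.Top

section

variable {E E' : Type*} [AddCommGroup E] [Module ℝ E] [TopologicalSpace E]
  [IsTopologicalAddGroup E] [ContinuousSMul ℝ E] [AddCommGroup E'] [Module ℝ E']
  [TopologicalSpace E'] [IsTopologicalAddGroup E'] [ContinuousSMul ℝ E']
  {S : Set E} (hS : Convex ℝ S) {S' : Set E'} (hS' : Convex ℝ S')

/-- the affine simplex with the given vertices in a convex set -/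
noncomputable def aff {n : ℕ} (v : Fin (n + 1) → S) : C(Sx n, S) where
  toFun t := ⟨∑ i, t.1 i • (v i : E),
    hS.sum_mem (fun i _ => t.2.1 i) t.2.2 (fun i _ => (v i).2)⟩
  continuous_toFun := by
    refine Continuous.subtype_mk ?_ _
    refine continuous_finsetSum _ fun i _ => ?_
    exact ((continuous_apply i).comp continuous_subtype_val).smul continuous_const

theorem aff_coe {n : ℕ} (v : Fin (n + 1) → S) (t : Sx n) :
    (aff hS v t : E) = ∑ i, t.1 i • (v i : E) := rfl

omit [TopologicalSpace E] [IsTopologicalAddGroup E] [ContinuousSMul ℝ E] in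
theorem sum_map_smul {X Y : Type*} [Fintype X] [Fintype Y] (f : X → Y) (t : X → ℝ) (v : Y → E) :
    ∑ j, (FunOnFinite.linearMap ℝ ℝ f t) j • v j = ∑ i, t i • v (f i) := by
  classical
  simp only [FunOnFinite.linearMap_apply_apply, Finset.sum_smul]
  rw [← Finset.sum_fiberwise Finset.univ f (fun i => t i • v (f i))]
  refine Finset.sum_congr rfl fun j _ => ?_
  refine Finset.sum_congr (by ext; simp) fun i hi => ?_
  simp only [Finset.mem_filter] at hi
  rw [hi.2]

theorem aff_face {n : ℕ} (v : Fin (n + 2) → S) (i : Fin (n + 2)) :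
    (aff hS v).comp (face n i) = aff hS (v ∘ Fin.succAbove i) := by
  ext t : 1
  apply Subtype.ext
  rw [ContinuousMap.comp_apply, aff_coe, aff_coe]
  exact sum_map_smul (Fin.succAbove i) t.1 (fun j => (v j : E))

/-- realisation of chains of tuples as singular chains -/
noncomputable def real {n : ℕ} : Tup S n →ₗ[ℚ] Chain S n := Finsupp.lmapDomain ℚ ℚ (aff hS)

@[simp] theorem real_single {n : ℕ} (v : Fin (n + 1) → S) (c : ℚ) :
    real hS (Finsupp.single v c) = Finsupp.single (aff hS v) c := Finsupp.mapDomain_single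

theorem real_bdT {n : ℕ} (z : Tup S (n + 1)) : real hS (bdT z) = bd (real hS z) := by
  have : (real hS).comp (bdT (K := S) (n := n)) = bd.comp (real hS) := by
    apply tup_ext
    intro v
    simp only [LinearMap.comp_apply, bdT_single, one_smul, real_single, bd_single]
    rw [bdTS, bdS, map_sum]
    refine Finset.sum_congr rfl fun i _ => ?_
    rw [map_smul, real_single, aff_face]
  exact LinearMap.congr_fun this z

/-- affine maps -/
def IsAff (p : S → S') : Prop :=
  ∀ (n : ℕ) (v : Fin (n + 1) → S) (t : Sx n), p (aff hS v t) = aff hS' (p ∘ v) t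

theorem real_mapT (p : C(S, S')) (hp : IsAff hS hS' p) {n : ℕ} (z : Tup S n) :
    real hS' (mapT p z) = mapC p (real hS z) := by
  have : (real hS').comp (mapT p (n := n)) = (mapC p).comp (real hS) := by
    apply tup_ext
    intro v
    simp only [LinearMap.comp_apply, mapT_single, real_single, mapC_single]
    congr 1
    ext t : 1
    rw [ContinuousMap.comp_apply]
    exact (hp n v t).symm
  exact LinearMap.congr_fun this z

/-- the barycenter of a tuple -/
noncomputable def bary (n : ℕ) (v : Fin (n + 1) → S) : S := aff hS v stdSimplex.barycenter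

theorem isAff_bary {p : S → S'} (hp : IsAff hS hS' p) (n : ℕ) (v : Fin (n + 1) → S) :
    p (bary hS n v) = bary hS' n (p ∘ v) := hp n v _

theorem isAff_of_linear (p : S → S') (L : E →ₗ[ℝ] E') (h : ∀ x : S, (p x : E') = L x) :
    IsAff hS hS' p := by
  intro n v t
  apply Subtype.ext
  rw [h, aff_coe, aff_coe, map_sum]
  refine Finset.sum_congr rfl fun i _ => ?_
  rw [map_smul, Function.comp_apply, h]

/-- affine simplices are affine maps -/
theorem isAff_aff {m : ℕ} (v : Fin (m + 1) → S) :
    IsAff (convex_stdSimplex ℝ (Fin (m + 1))) hS (aff hS v) := by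
  intro n w t
  apply Subtype.ext
  rw [aff_coe, aff_coe, aff_coe]
  simp only [Finset.sum_apply, Pi.smul_apply, smul_eq_mul, Finset.sum_smul, Function.comp_apply,
    aff_coe, Finset.smul_sum, mul_smul]
  rw [Finset.sum_comm]

end

/-- convexity of the standard simplex -/
theorem hSx (n : ℕ) : Convex ℝ (stdSimplex ℝ (Fin (n + 1))) := convex_stdSimplex ℝ _

theorem isAff_face (n : ℕ) (i : Fin (n + 2)) : IsAff (hSx n) (hSx (n + 1)) (face n i) :=
  isAff_of_linear _ _ _ (FunOnFinite.linearMap ℝ ℝ (Fin.succAbove i)) fun _ => rfl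

/-- the vertices of the standard simplex -/
noncomputable def vert (n : ℕ) : Fin (n + 1) → Sx n := stdSimplex.vertex

theorem face_vert (n : ℕ) (i : Fin (n + 2)) :
    (face n i) ∘ vert n = vert (n + 1) ∘ Fin.succAbove i := by
  funext k
  exact stdSimplex.map_vertex _ _

theorem aff_vert_apply {E : Type*} [AddCommGroup E] [Module ℝ E] [TopologicalSpace E]
    [IsTopologicalAddGroup E] [ContinuousSMul ℝ E] {S : Set E} (hS : Convex ℝ S) {n : ℕ}
    (v : Fin (n + 1) → S) : aff hS v ∘ vert n = v := by
  funext k
  apply Subtype.ext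
  rw [Function.comp_apply, aff_coe]
  simp [vert, Pi.single_apply, ite_smul]

theorem aff_vert (n : ℕ) : aff (hSx n) (vert n) = ContinuousMap.id _ := by
  ext t : 1
  apply Subtype.ext
  rw [aff_coe]
  funext k
  simp [vert, Finset.sum_apply, Pi.single_apply]

end Pool.Agent.Lib.MP_ee7b66_ag.Top
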