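import Mathlib
import Pool.Agent.Lib.MP_ee7b66_ag.Top.Basic

/-!
# Cones and star-shaped sets

Star-shaped subsets of a normed space have trivial rational homology.
-/

set_option autoImplicit false

open Set Topology

namespace Pool.Agent.Lib.MP_ee7b66_ag.Top

/-! ### Coordinates on the simplices -/

theorem face_apply_self {n : ℕ} (i : Fin (n + 2)) (y : Sx n) : face n i y i = 0 := by
  simp only [face, ContinuousMap.coe_mk, stdSimplex.map_coe, FunOnFinite.linearMap_apply_apply]
  apply Finset.sum_eq_zero
  intro k hk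
  exact absurd (Finset.mem_filter.mp hk).2 (Fin.succAbove_ne i k)

theorem face_apply_succAbove {n : ℕ} (i : Fin (n + 2)) (y : Sx n) (k : Fin (n + 1)) :
    face n i y (i.succAbove k) = y k := by
  simp only [face, ContinuousMap.coe_mk, stdSimplex.map_coe, FunOnFinite.linearMap_apply_apply]
  rw [Finset.sum_eq_single k]
  · intro l hl hlk
    exact absurd (Fin.succAbove_right_injective (Finset.mem_filter.mp hl).2) hlk
  · intro h
    exact absurd (by simp) h

theorem face_zero_apply_zero {n : ℕ} (y : Sx n) : face n 0 y 0 = 0 := face_apply_self 0 y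

theorem face_zero_apply_succ {n : ℕ} (y : Sx n) (k : Fin (n + 1)) : face n 0 y k.succ = y k := by
  rw [← Fin.succAbove_zero_apply, face_apply_succAbove]

theorem face_succ_apply_zero {n : ℕ} (i : Fin (n + 2)) (y : Sx (n + 1)) :
    face (n + 1) i.succ y 0 = y 0 := by
  rw [← Fin.succ_succAbove_zero i, face_apply_succAbove]

theorem face_succ_apply_succ {n : ℕ} (i : Fin (n + 2)) (y : Sx (n + 1)) (j : Fin (n + 2)) :
    face (n + 1) i.succ y j.succ = if h : ∃ k, i.succAbove k = j then y h.choose.succ else 0 := by
  split_ifs with h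
  · have hk := h.choose_spec
    conv_lhs => rw [← hk]
    rw [← Fin.succ_succAbove_succ, face_apply_succAbove]
  · have : j = i := by
      by_contra hne
      exact h (Fin.exists_succAbove_eq hne)
    rw [this, face_apply_self]

/-- the projection of the simplex from the vertex `0` to the opposite face (with an arbitrary value
at the vertex) -/
noncomputable def tl {n : ℕ} (x : Sx (n + 1)) : Sx n :=
  if h : x 0 = 1 then Classical.arbitrary _ else
    ⟨fun i => x i.succ / (1 - x 0), by
      constructor
      · intro i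
        exact div_nonneg (x.2.1 _) (sub_nonneg.2 (stdSimplex.le_one x 0))
      · rw [← Finset.sum_div, div_eq_one_iff_eq (sub_ne_zero.2 (Ne.symm h))]
        have := x.2.2
        rw [Fin.sum_univ_succ] at this
        exact eq_sub_of_add_eq' this⟩

theorem tl_apply {n : ℕ} {x : Sx (n + 1)} (h : x 0 ≠ 1) (i : Fin (n + 1)) :
    tl x i = x i.succ / (1 - x 0) := by
  rw [tl, dif_neg h]
  rfl

theorem tl_face_zero {n : ℕ} (y : Sx n) : tl (face n 0 y) = y := by
  have h0 : face n 0 y 0 = 0 := face_zero_apply_zero y
  apply stdSimplex.ext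
  funext i
  have hne : face n 0 y 0 ≠ 1 := by rw [h0]; exact zero_ne_one
  rw [tl_apply hne, h0, face_zero_apply_succ, sub_zero, div_one]

theorem tl_face_succ {n : ℕ} (i : Fin (n + 2)) (y : Sx (n + 1)) (h : y 0 ≠ 1) :
    tl (face (n + 1) i.succ y) = face n i (tl y) := by
  have h0 : face (n + 1) i.succ y 0 = y 0 := face_succ_apply_zero i y
  apply stdSimplex.ext
  funext j
  rw [tl_apply (by rwa [h0]), h0]
  by_cases hj : j = i
  · rw [hj, face_apply_self, face_apply_self, zero_div]
  · obtain ⟨k, rfl⟩ := Fin.exists_succAbove_eq hj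
    rw [← Fin.succ_succAbove_succ, face_apply_succAbove, face_apply_succAbove, tl_apply h]

theorem continuous_coord {n : ℕ} (i : Fin (n + 1)) : Continuous fun x : Sx n => x i :=
  (continuous_apply i).comp continuous_subtype_val

theorem continuousAt_tl {n : ℕ} {x : Sx (n + 1)} (h : x 0 ≠ 1) : ContinuousAt tl x := by
  rw [Topology.IsInducing.subtypeVal.continuousAt_iff, continuousAt_pi]
  intro i
  have hev : (fun y : Sx (n + 1) => y i.succ / (1 - y 0)) =ᶠ[𝓝 x]
      fun y => ((Subtype.val ∘ tl) y : Fin (n + 1) → ℝ) i := by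
    filter_upwards [(continuous_coord 0).continuousAt.eventually_ne h] with y hy
    exact (tl_apply hy i).symm
  refine ContinuousAt.congr ?_ hev
  exact (continuous_coord _).continuousAt.div
    (continuousAt_const.sub (continuous_coord _).continuousAt) (sub_ne_zero.2 (Ne.symm h))

/-! ### The cone -/

section cone

variable {E : Type*} [NormedAddCommGroup E] [NormedSpace ℝ E]

/-- the cone of a simplex with vertex `p` -/
noncomputable def cone {n : ℕ} (p : E) (σ : C(Sx n, E)) : C(Sx (n + 1), E) where
  toFun x := x 0 • p + (1 - x 0) • σ (tl x)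
  continuous_toFun := by
    rw [continuous_iff_continuousAt]
    intro x
    by_cases h : x 0 = 1
    · obtain ⟨M, hM⟩ := (isCompact_range σ.continuous).isBounded.exists_norm_le
      have h2 : Filter.Tendsto (fun y : Sx (n + 1) => (1 - y 0) • σ (tl y)) (𝓝 x) (𝓝 0) := by
        rw [tendsto_zero_iff_norm_tendsto_zero]
        have h3 : Filter.Tendsto (fun y : Sx (n + 1) => |1 - y 0| * M) (𝓝 x) (𝓝 0) := by
          have h4 : Continuous fun y : Sx (n + 1) => |1 - y 0| * M :=
            ((continuous_const.sub (continuous_coord 0)).abs).mul continuous_const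
          have h5 := h4.tendsto x
          rwa [h, sub_self, abs_zero, zero_mul] at h5
        refine squeeze_zero (fun _ => norm_nonneg _) (fun y => ?_) h3
        rw [norm_smul, Real.norm_eq_abs]
        exact mul_le_mul_of_nonneg_left (hM _ (mem_range_self _)) (abs_nonneg _)
      have h6 : Filter.Tendsto (fun y : Sx (n + 1) => y 0 • p) (𝓝 x) (𝓝 (x 0 • p)) :=
        ((continuous_coord 0).smul continuous_const).tendsto x
      have := h6.add h2
      rw [add_zero] at this
      change Filter.Tendsto _ _ (𝓝 (x 0 • p + (1 - x 0) • σ (tl x)))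
      rw [h, sub_self, zero_smul, add_zero]
      rwa [h] at this
    · exact ((continuous_coord 0).continuousAt.smul continuousAt_const).add
        ((continuousAt_const.sub (continuous_coord 0).continuousAt).smul
          (σ.continuous.continuousAt.comp (continuousAt_tl h)))

theorem cone_apply {n : ℕ} (p : E) (σ : C(Sx n, E)) (x : Sx (n + 1)) :
    cone p σ x = x 0 • p + (1 - x 0) • σ (tl x) := rfl

theorem cone_face_zero {n : ℕ} (p : E) (σ : C(Sx n, E)) : (cone p σ).comp (face n 0) = σ := by
  ext y
  rw [ContinuousMap.comp_apply, cone_apply, tl_face_zero, face_zero_apply_zero, zero_smul,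
    sub_zero, one_smul, zero_add]

theorem cone_face_succ {n : ℕ} (p : E) (σ : C(Sx (n + 1), E)) (i : Fin (n + 2)) :
    (cone p σ).comp (face (n + 1) i.succ) = cone p (σ.comp (face n i)) := by
  ext y
  rw [ContinuousMap.comp_apply, cone_apply, cone_apply, face_succ_apply_zero]
  by_cases h : y 0 = 1
  · rw [h, sub_self, zero_smul, zero_smul]
  · rw [tl_face_succ i y h, ContinuousMap.comp_apply]

theorem cone_face_one {p : E} (σ : C(Sx 0, E)) :
    (cone p σ).comp (face 0 1) = ContinuousMap.const _ p := by
  ext y
  have h0 : face 0 1 y 0 = 1 := by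
    have : (0 : Fin 2) = Fin.succAbove (1 : Fin 2) 0 := rfl
    rw [this, face_apply_succAbove]
    exact stdSimplex.eq_one_of_unique (X := Fin 1) y 0
  rw [ContinuousMap.comp_apply, cone_apply, h0, sub_self, zero_smul, one_smul, add_zero]
  rfl

/-- the cone operator on chains -/
noncomputable def coneC {n : ℕ} (p : E) : Chain E n →ₗ[ℚ] Chain E (n + 1) :=
  Finsupp.lmapDomain ℚ ℚ (cone p)

@[simp] theorem coneC_single {n : ℕ} (p : E) (σ : C(Sx n, E)) (c : ℚ) :
    coneC p (Finsupp.single σ c) = Finsupp.single (cone p σ) c := Finsupp.mapDomain_single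

theorem bd_coneC {n : ℕ} (p : E) (z : Chain E (n + 1)) :
    bd (coneC p z) = z - coneC p (bd z) := by
  have : bd.comp (coneC p (n := n + 1)) = LinearMap.id - (coneC p).comp bd := by
    apply hom_ext
    intro σ
    simp only [LinearMap.comp_apply, coneC_single, bd_single, one_smul, LinearMap.sub_apply,
      LinearMap.id_apply, bdS]
    rw [Fin.sum_univ_succ, cone_face_zero, map_sum, sub_eq_add_neg, ← Finset.sum_neg_distrib]
    simp only [Fin.val_zero, pow_zero, one_smul, map_smul, coneC_single, cone_face_succ,
      Fin.val_succ, pow_succ, mul_neg, mul_one, neg_smul]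
  exact LinearMap.congr_fun this z

theorem bd_coneC_zero (p : E) (z : Chain E 0) :
    bd (coneC p z) = z - deg z • Finsupp.single (ContinuousMap.const _ p) 1 := by
  have : bd.comp (coneC p (n := 0)) = LinearMap.id -
      (deg (T := E)).smulRight (Finsupp.single (ContinuousMap.const _ p) (1 : ℚ)) := by
    apply hom_ext
    intro σ
    simp only [LinearMap.comp_apply, coneC_single, bd_single, one_smul, LinearMap.sub_apply,
      LinearMap.id_apply, bdS, LinearMap.smulRight_apply, deg_single]
    rw [Fin.sum_univ_two, cone_face_zero, cone_face_one]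
    simp only [Fin.val_zero, pow_zero, one_smul, Fin.val_one, pow_one, neg_smul]
    rw [sub_eq_add_neg]
  exact LinearMap.congr_fun this z

theorem cone_mem {n : ℕ} {p : E} {A : Set E} (hA : StarConvex ℝ p A) {σ : C(Sx n, E)}
    (hσ : ∀ x, σ x ∈ A) (x : Sx (n + 1)) : cone p σ x ∈ A :=
  hA (hσ _) (x.2.1 0) (sub_nonneg.2 (stdSimplex.le_one x 0)) (by rw [add_sub_cancel])

theorem coneC_mem {n : ℕ} {p : E} {A : Set E} (hA : StarConvex ℝ p A) {z : Chain E n}
    (hz : z ∈ Ch A n) : coneC p z ∈ Ch A (n + 1) := by
  refine map_mem_of_single _ _ ?_ hz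
  intro σ hσ
  rw [coneC_single]
  exact single_mem (cone_mem hA hσ) 1

theorem StarConvex.acyc {p : E} {A : Set E} (hA : StarConvex ℝ p A) (n : ℕ) : Acyc A n := by
  intro z hz hbd
  refine ⟨coneC p z, coneC_mem hA hz, ?_⟩
  rw [bd_coneC, hbd, map_zero, sub_zero]

theorem StarConvex.conn {p : E} {A : Set E} (hA : StarConvex ℝ p A) : Conn A := by
  intro z hz hdeg
  refine ⟨coneC p z, coneC_mem hA hz, ?_⟩
  rw [bd_coneC_zero, hdeg, zero_smul, sub_zero]

theorem Convex.acyc' {A : Set E} (hA : Convex ℝ A) (n : ℕ) : Acyc A n := by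
  rcases A.eq_empty_or_nonempty with rfl | ⟨p, hp⟩
  · exact StarConvex.acyc (p := (0 : E)) (starConvex_empty _) n
  · exact StarConvex.acyc (hA.starConvex hp) n

theorem Convex.conn' {A : Set E} (hA : Convex ℝ A) : Conn A := by
  rcases A.eq_empty_or_nonempty with rfl | ⟨p, hp⟩
  · exact StarConvex.conn (p := (0 : E)) (starConvex_empty _)
  · exact StarConvex.conn (hA.starConvex hp)

end cone

end Pool.Agent.Lib.MP_ee7b66_ag.Top
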