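import Mathlib
import Pool.Agent.Lib.MP_ee7b66_ag.Mg.G010

/-!
# Sets which are homology circles

`Z` is open, `s` is continuous and without zeros on `Z`; if the parts of `Z` where `s` is not a
negative (positive) real number and where the imaginary part of `s` is positive (negative) are
acyclic, then `H_n(Z) = 0` for `n ≥ 2` and a `1`-cycle `z` of `Z` with `theta s z = 0` bounds.
-/

set_option autoImplicit false

open Set Topology

namespace Pool.Agent.Lib.MP_ee7b66_ag.Top

variable {T : Type*} [TopologicalSpace T]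

theorem log_neg_of_im_pos {c : ℂ} (h : 0 < c.im) :
    Complex.log (-c) + Real.pi * Complex.I = Complex.log c := by
  rw [Complex.log, Complex.log, norm_neg, Complex.arg_neg_eq_arg_sub_pi_of_im_pos h]
  push_cast
  ring

theorem log_neg_of_im_neg {c : ℂ} (h : c.im < 0) :
    Complex.log (-c) + Real.pi * Complex.I = Complex.log c + 2 * Real.pi * Complex.I := by
  rw [Complex.log, Complex.log, norm_neg, Complex.arg_neg_eq_arg_add_pi_of_im_neg h]
  push_cast
  ring

/-- two functions which differ by `2 π i c` on `A` -/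
theorem ev0_sub {l l' : T → ℂ} {A : Set T} {c : ℂ}
    (h : ∀ x ∈ A, l x - l' x = c * (2 * Real.pi * Complex.I)) {z : Chain T 0}
    (hz : z ∈ Ch A 0) : ev0 l z - ev0 l' z = deg z • c := by
  have key : (ev0 l - ev0 l' - (deg (T := T)).smulRight c) z ∈ (⊥ : Submodule ℚ ℂ) := by
    refine map_mem_of_single _ _ ?_ hz
    intro σ hσ
    rw [Submodule.mem_bot, LinearMap.sub_apply, LinearMap.sub_apply, ev0_single, ev0_single,
      LinearMap.smulRight_apply, deg_single, one_smul, one_smul, one_smul, ← sub_div,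
      h _ (hσ _), mul_div_cancel_right₀ _ Complex.two_pi_I_ne_zero, sub_self]
  rw [Submodule.mem_bot, LinearMap.sub_apply, LinearMap.sub_apply, sub_eq_zero] at key
  exact key

section

variable {Z : Set T} {s : T → ℂ}

/-- the part of `Z` where `s` is not a negative real number -/
def slitA (Z : Set T) (s : T → ℂ) : Set T := Z ∩ s ⁻¹' Complex.slitPlane

/-- the part of `Z` where `s` is not a positive real number -/
def slitB (Z : Set T) (s : T → ℂ) : Set T := Z ∩ s ⁻¹' {c | -c ∈ Complex.slitPlane}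

/-- the part of `Z` where `s` has positive imaginary part -/
def upZ (Z : Set T) (s : T → ℂ) : Set T := Z ∩ s ⁻¹' {c | 0 < c.im}

/-- the part of `Z` where `s` has negative imaginary part -/
def loZ (Z : Set T) (s : T → ℂ) : Set T := Z ∩ s ⁻¹' {c | c.im < 0}

theorem isOpen_slitA (hZ : IsOpen Z) (hs : ContinuousOn s Z) : IsOpen (slitA Z s) :=
  hs.isOpen_inter_preimage hZ Complex.isOpen_slitPlane

theorem isOpen_slitB (hZ : IsOpen Z) (hs : ContinuousOn s Z) : IsOpen (slitB Z s) :=
  hs.isOpen_inter_preimage hZ (Complex.isOpen_slitPlane.preimage continuous_neg)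

theorem isOpen_upZ (hZ : IsOpen Z) (hs : ContinuousOn s Z) : IsOpen (upZ Z s) :=
  hs.isOpen_inter_preimage hZ (isOpen_lt continuous_const Complex.continuous_im)

theorem isOpen_loZ (hZ : IsOpen Z) (hs : ContinuousOn s Z) : IsOpen (loZ Z s) :=
  hs.isOpen_inter_preimage hZ (isOpen_lt Complex.continuous_im continuous_const)

theorem slit_union (h0 : ∀ x ∈ Z, s x ≠ 0) : slitA Z s ∪ slitB Z s = Z := by
  ext x
  constructor
  · rintro (h | h) <;> exact h.1
  · intro hx
    have h1 := h0 x hx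
    by_cases h : s x ∈ Complex.slitPlane
    · exact Or.inl ⟨hx, h⟩
    · refine Or.inr ⟨hx, ?_⟩
      rw [mem_preimage, mem_ofPred_eq]
      rw [Complex.mem_slitPlane_iff] at h ⊢
      push Not at h
      left
      rw [Complex.neg_re, neg_pos]
      refine lt_of_le_of_ne h.1 fun h2 => h1 ?_
      exact Complex.ext h2 h.2

theorem slit_inter : slitA Z s ∩ slitB Z s = upZ Z s ∪ loZ Z s := by
  ext x
  simp only [slitA, slitB, upZ, loZ, mem_inter_iff, mem_union, mem_preimage, mem_ofPred_eq,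
    Complex.mem_slitPlane_iff, Complex.neg_re, Complex.neg_im]
  constructor
  · rintro ⟨⟨hx, h1⟩, -, h2⟩
    rcases lt_trichotomy (s x).im 0 with h | h | h
    · exact Or.inr ⟨hx, h⟩
    · simp only [h, ne_eq, not_true_eq_false, or_false, neg_zero] at h1 h2
      linarith
    · exact Or.inl ⟨hx, h⟩
  · rintro (⟨hx, h⟩ | ⟨hx, h⟩)
    · exact ⟨⟨hx, Or.inr h.ne'⟩, hx, Or.inr (by simpa using h.ne')⟩
    · exact ⟨⟨hx, Or.inr h.ne⟩, hx, Or.inr (by simpa using h.ne)⟩

theorem upZ_loZ_disjoint : Disjoint (upZ Z s) (loZ Z s) := by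
  rw [Set.disjoint_left]
  intro x h1 h2
  have h3 : 0 < (s x).im := h1.2
  have h4 : (s x).im < 0 := h2.2
  linarith

theorem circ_acyc (hZ : IsOpen Z) (hs : ContinuousOn s Z) (h0 : ∀ x ∈ Z, s x ≠ 0)
    {n : ℕ} (hA : Acyc (slitA Z s) (n + 1)) (hB : Acyc (slitB Z s) (n + 1))
    (hP : Acyc (upZ Z s) n) (hQ : Acyc (loZ Z s) n) : Acyc Z (n + 1) := by
  have h := acyc_union (isOpen_slitA hZ hs) (isOpen_slitB hZ hs) hA hB (by
    rw [slit_inter]
    exact acyc_union_of_disjoint (isOpen_upZ hZ hs) (isOpen_loZ hZ hs) upZ_loZ_disjoint hP hQ)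
  rwa [slit_union h0] at h

/-- the decomposition of a `1`-cycle: `a` and `b` are its parts in the two slit sets, the boundary
of `a` has parts `p` and `q` in the upper and lower part, and `theta s z` is minus the degree of
`q` -/
theorem circ_decomp (hZ : IsOpen Z) (hs : ContinuousOn s Z) (h0 : ∀ x ∈ Z, s x ≠ 0)
    {z : Chain T 1} (hz : z ∈ Ch Z 1) (hbd : bd z = 0) :
    ∃ a ∈ Ch (slitA Z s) 1, ∃ b ∈ Ch (slitB Z s) 1, ∃ w ∈ Ch Z 2, ∃ p ∈ Ch (upZ Z s) 0,
      ∃ q ∈ Ch (loZ Z s) 0, z = a + b + bd w ∧ bd a + bd b = 0 ∧ bd a = p + q ∧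
        theta s z = -((deg q : ℚ) : ℂ) := by
  have hz' := hz
  rw [← slit_union h0] at hz'
  obtain ⟨a, ha, b, hb, w, hw, rfl, hab, hm⟩ :=
    mv_cycle (isOpen_slitA hZ hs) (isOpen_slitB hZ hs) hz' hbd
  rw [slit_inter] at hm
  obtain ⟨p, hp, q, hq, hpq⟩ := exists_add_of_disjoint (isOpen_upZ hZ hs) (isOpen_loZ hZ hs)
    upZ_loZ_disjoint hm
  rw [slit_union h0] at hw
  -- the two logarithms
  have hlA : ContinuousOn (fun x => Complex.log (s x)) (slitA Z s) := fun x hx =>
    ((hs x hx.1).mono inter_subset_left).clog hx.2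
  have hlB : ContinuousOn (fun x => Complex.log (-s x) + Real.pi * Complex.I) (slitB Z s) :=
    fun x hx => ((((hs x hx.1).mono inter_subset_left).neg).clog hx.2).add
      continuousWithinAt_const
  have eA : theta s a = ev0 (fun x => Complex.log (s x)) (bd a) :=
    theta_of_log hlA (fun x hx => Complex.exp_log (h0 x hx.1)) ha
  have eB : theta s b = ev0 (fun x => Complex.log (-s x) + Real.pi * Complex.I) (bd b) :=
    theta_of_log hlB (fun x hx => by
      rw [Complex.exp_add, Complex.exp_log (neg_ne_zero.2 (h0 x hx.1)), Complex.exp_pi_mul_I]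
      ring) hb
  have hP' := ev0_sub (l := fun x => Complex.log (s x))
    (l' := fun x => Complex.log (-s x) + Real.pi * Complex.I) (A := upZ Z s) (c := 0)
    (fun x hx => by rw [log_neg_of_im_pos hx.2, sub_self, zero_mul]) hp
  have hQ' := ev0_sub (l := fun x => Complex.log (s x))
    (l' := fun x => Complex.log (-s x) + Real.pi * Complex.I) (A := loZ Z s) (c := -1)
    (fun x hx => by rw [log_neg_of_im_neg hx.2]; ring) hq
  refine ⟨a, ha, b, hb, w, hw, p, hp, q, hq, rfl, hab, hpq, ?_⟩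
  rw [map_add, map_add, theta_bd hs h0 hw, add_zero, eA, eB, eq_neg_of_add_eq_zero_right hab,
    map_neg, ← sub_eq_add_neg, hpq, map_add, map_add, add_sub_add_comm, hP', hQ']
  simp [Algebra.smul_def]

/-- the winding number of a `1`-cycle is rational -/
theorem theta_rat (hZ : IsOpen Z) (hs : ContinuousOn s Z) (h0 : ∀ x ∈ Z, s x ≠ 0)
    {z : Chain T 1} (hz : z ∈ Ch Z 1) (hbd : bd z = 0) : ∃ r : ℚ, theta s z = r := by
  obtain ⟨a, -, b, -, w, -, p, -, q, -, -, -, -, h⟩ := circ_decomp hZ hs h0 hz hbd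
  exact ⟨-deg q, by rw [h]; push_cast; rfl⟩

theorem circ_bound (hZ : IsOpen Z) (hs : ContinuousOn s Z) (h0 : ∀ x ∈ Z, s x ≠ 0)
    (hA : Acyc (slitA Z s) 0) (hB : Acyc (slitB Z s) 0)
    (hP : Conn (upZ Z s)) (hQ : Conn (loZ Z s)) {z : Chain T 1} (hz : z ∈ Ch Z 1)
    (hbd : bd z = 0) (hθ : theta s z = 0) : ∃ w ∈ Ch Z 2, bd w = z := by
  obtain ⟨a, ha, b, hb, w, hw, p, hp, q, hq, rfl, hab, hpq, hth⟩ := circ_decomp hZ hs h0 hz hbd
  have hdq : deg q = 0 := by
    rw [hθ, eq_comm, neg_eq_zero] at hth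
    exact_mod_cast hth
  have hdp : deg p = 0 := by
    have := deg_bd a
    rw [hpq, map_add, hdq, add_zero] at this
    exact this
  obtain ⟨u, hu, hup⟩ := hP p hp hdp
  obtain ⟨v, hv, hvq⟩ := hQ q hq hdq
  obtain ⟨w', hw', hw'e⟩ := mv_bound hA hB ha hb hab ⟨u + v, by
    rw [slit_inter]
    exact Submodule.add_mem _ (Ch_mono subset_union_left _ hu) (Ch_mono subset_union_right _ hv),
    by rw [map_add, hup, hvq, hpq]⟩
  rw [slit_union h0] at hw'
  exact ⟨w' + w, Submodule.add_mem _ hw' hw, by rw [map_add, hw'e]⟩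

end

end Pool.Agent.Lib.MP_ee7b66_ag.Top
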