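import Pool.Agent.Lib.MP_ee7b66_ag.Top.Basic

/-!
# Comparison with Mathlib's singular homology
-/

set_option autoImplicit false

open Set CategoryTheory Limits Simplicial

namespace Pool.Agent.Lib.MP_ee7b66_ag.Top

section

variable (T : Type) [TopologicalSpace T]

/-- Mathlib's singular chain complex -/
noncomputable abbrev SC : ChainComplex (ModuleCat.{0} ℚ) ℕ :=
  (TopCat.toSSet.obj (TopCat.of T)).chainComplex (ModuleCat.of ℚ ℚ)

/-- the simplex of Mathlib's singular simplicial set -/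
noncomputable def toS {n : ℕ} (σ : C(Sx n, T)) : (TopCat.toSSet.obj (TopCat.of T)) _⦋n⦌ :=
  (TopCat.toSSetObjEquiv (TopCat.of T) (Opposite.op ⦋n⦌)).symm σ

/-- the simplex of Mathlib's singular simplicial set -/
noncomputable def ofS {n : ℕ} (x : (TopCat.toSSet.obj (TopCat.of T)) _⦋n⦌) : C(Sx n, T) :=
  (TopCat.toSSetObjEquiv (TopCat.of T) (Opposite.op ⦋n⦌)) x

lemma ofS_toS {n : ℕ} (σ : C(Sx n, T)) : ofS T (toS T σ) = σ :=
  (TopCat.toSSetObjEquiv (TopCat.of T) (Opposite.op ⦋n⦌)).apply_symm_apply σ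

lemma toS_ofS {n : ℕ} (x : (TopCat.toSSet.obj (TopCat.of T)) _⦋n⦌) : toS T (ofS T x) = x :=
  (TopCat.toSSetObjEquiv (TopCat.of T) (Opposite.op ⦋n⦌)).symm_apply_apply x

/-- the face of a simplex -/
lemma toS_face {n : ℕ} (σ : C(Sx (n + 1), T)) (i : Fin (n + 2)) :
    (TopCat.toSSet.obj (TopCat.of T)).δ i (toS T σ) = toS T (σ.comp (face n i)) := by
  rfl

/-- the generator of a simplex -/
noncomputable def gen {n : ℕ} (x : (TopCat.toSSet.obj (TopCat.of T)) _⦋n⦌) : (SC T).X n :=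
  (SSet.ιChainComplex (R := ModuleCat.of ℚ ℚ) (TopCat.toSSet.obj (TopCat.of T)) x).hom (1 : ℚ)

/-- the chain map -/
noncomputable def Phi (n : ℕ) : Chain T n →ₗ[ℚ] (SC T).X n :=
  Finsupp.linearCombination ℚ fun σ => gen T (toS T σ)

/-- the inverse -/
noncomputable def Psi (n : ℕ) : (SC T).X n ⟶ ModuleCat.of ℚ (Chain T n) :=
  Cofan.IsColimit.desc ((TopCat.toSSet.obj (TopCat.of T)).isColimitChainComplexXCofan
    (ModuleCat.of ℚ ℚ) n) (fun x => ModuleCat.ofHom
      (LinearMap.toSpanSingleton ℚ (Chain T n) (Finsupp.single (ofS T x) 1)))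

lemma iota_Psi {n : ℕ} (x : (TopCat.toSSet.obj (TopCat.of T)) _⦋n⦌) :
    SSet.ιChainComplex (R := ModuleCat.of ℚ ℚ) (TopCat.toSSet.obj (TopCat.of T)) x ≫ Psi T n =
      ModuleCat.ofHom (LinearMap.toSpanSingleton ℚ (Chain T n) (Finsupp.single (ofS T x) 1)) :=
  Cofan.IsColimit.fac _ _ _

lemma Psi_gen {n : ℕ} (x : (TopCat.toSSet.obj (TopCat.of T)) _⦋n⦌) :
    (Psi T n).hom (gen T x) = Finsupp.single (ofS T x) 1 := by
  have h := congrArg (fun f => f.hom (1 : ℚ)) (iota_Psi T x)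
  simpa [gen] using h

lemma Psi_Phi {n : ℕ} (z : Chain T n) : (Psi T n).hom (Phi T n z) = z := by
  have : (Psi T n).hom.comp (Phi T n) = LinearMap.id := by
    apply hom_ext
    intro σ
    simp only [LinearMap.comp_apply, Phi, Finsupp.linearCombination_single, one_smul,
      LinearMap.id_apply]
    rw [Psi_gen, ofS_toS]
  exact LinearMap.congr_fun this z

lemma Phi_Psi {n : ℕ} (y : (SC T).X n) : Phi T n ((Psi T n).hom y) = y := by
  have : Psi T n ≫ ModuleCat.ofHom (Phi T n) = 𝟙 _ := by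
    apply SSet.chainComplex_hom_ext
    intro x
    rw [← Category.assoc, iota_Psi, Category.comp_id]
    ext
    simp only [Phi, ModuleCat.hom_comp, ModuleCat.hom_ofHom, LinearMap.comp_apply,
      LinearMap.toSpanSingleton_apply, one_smul, Finsupp.linearCombination_single]
    rw [toS_ofS]
    rfl
  have h := congrArg (fun f => f.hom y) this
  simpa using h

lemma d_gen {n : ℕ} (x : (TopCat.toSSet.obj (TopCat.of T)) _⦋n + 1⦌) :
    ((SC T).d (n + 1) n).hom (gen T x) =
      ∑ i : Fin (n + 2), (-1 : ℚ) ^ (i : ℕ) •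
        gen T ((TopCat.toSSet.obj (TopCat.of T)).δ i x) := by
  have h := congrArg (fun f => f.hom (1 : ℚ)) (SSet.ιChainComplex_d (TopCat.toSSet.obj
    (TopCat.of T)) (ModuleCat.of ℚ ℚ) x)
  simp only [ModuleCat.hom_comp, LinearMap.comp_apply, ModuleCat.hom_sum,
    LinearMap.sum_apply, ModuleCat.hom_zsmul, LinearMap.smul_apply] at h
  refine h.trans (Finset.sum_congr rfl fun i _ => ?_)
  rw [← Int.cast_smul_eq_zsmul ℚ]
  push_cast
  rfl

lemma d_Phi {n : ℕ} (z : Chain T (n + 1)) :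
    ((SC T).d (n + 1) n).hom (Phi T (n + 1) z) = Phi T n (bd z) := by
  have : ((SC T).d (n + 1) n).hom.comp (Phi T (n + 1)) = (Phi T n).comp bd := by
    apply hom_ext
    intro σ
    simp only [LinearMap.comp_apply, Phi, Finsupp.linearCombination_single, one_smul, bd_single,
      bdS, map_sum, map_smul]
    rw [d_gen]
    simp only [toS_face]
  exact LinearMap.congr_fun this z

lemma exact_of_acyc (n : ℕ) (h : Acyc (univ : Set T) n) (y : (SC T).X (n + 1))
    (hy : ((SC T).d (n + 1) n).hom y = 0) :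
    ∃ x : (SC T).X (n + 2), ((SC T).d (n + 2) (n + 1)).hom x = y := by
  obtain ⟨w, -, hw⟩ := h ((Psi T (n + 1)).hom y) (by rw [Ch_univ]; trivial) (by
    have h1 := d_Phi T ((Psi T (n + 1)).hom y)
    rw [Phi_Psi, hy] at h1
    have h2 := Psi_Phi T (bd ((Psi T (n + 1)).hom y))
    rw [← h1, map_zero] at h2
    exact h2.symm)
  exact ⟨Phi T (n + 2) w, by rw [d_Phi, hw, Phi_Psi]⟩

/-- **Comparison**: if every concrete `(n+1)`-cycle of `T` bounds then Mathlib's `H_{n+1}(T; ℚ)`
vanishes. -/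
theorem isZero_singularHomology (n : ℕ) (h : Acyc (univ : Set T) n) :
    IsZero (((AlgebraicTopology.singularHomologyFunctor (ModuleCat.{0} ℚ) (n + 1)).obj
      (ModuleCat.of ℚ ℚ)).obj (TopCat.of T)) := by
  change IsZero ((SC T).homology (n + 1))
  rw [← HomologicalComplex.exactAt_iff_isZero_homology]
  rw [HomologicalComplex.exactAt_iff' _ (n + 2) (n + 1) n (by simp) (by simp)]
  rw [ShortComplex.moduleCat_exact_iff]
  intro y hy
  exact exact_of_acyc T n h y hy

end

end Pool.Agent.Lib.MP_ee7b66_ag.Top
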