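import Mathlib
import Pool.Agent.Lib.MP_ee7b66_ag.Mg.G013

/-!
# The homology of the surface described by a `Model`
-/

set_option autoImplicit false

open Set Topology

namespace Pool.Agent.Lib.MP_ee7b66_ag.Top

/-! ### Linear algebra -/

/-- if the `b k` span the `2`-cycles modulo boundaries and the same number of cycles `c k` is
linearly independent modulo boundaries, then the `c k` span -/
theorem span_of_card {T : Type*} [TopologicalSpace T] {κ : Type*} [Fintype κ] [DecidableEq κ]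
    (b c : κ → Chain T 2)
    (hb : ∀ z : Chain T 2, bd z = 0 → ∃ q : κ → ℚ, ∃ w : Chain T 3, z = ∑ k, q k • b k + bd w)
    (hc : ∀ k, bd (c k) = 0)
    (hind : ∀ q : κ → ℚ, (∃ w : Chain T 3, ∑ k, q k • c k = bd w) → q = 0)
    {z : Chain T 2} (hz : bd z = 0) : ∃ q : κ → ℚ, ∃ w : Chain T 3, z = ∑ k, q k • c k + bd w := by
  choose a w haw using fun k => hb (c k) (hc k)
  let A : Matrix κ κ ℚ := Matrix.of a
  have hA : Function.Injective A.vecMul := by
    intro q q' hqq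
    rw [← sub_eq_zero] at hqq ⊢
    have h1 : Matrix.vecMul (q - q') A = 0 := by rw [Matrix.sub_vecMul]; exact hqq
    apply hind
    refine ⟨∑ k, (q - q') k • w k, ?_⟩
    rw [map_sum]
    have h2 : ∑ k, (q - q') k • c k =
        ∑ l, (Matrix.vecMul (q - q') A) l • b l + ∑ k, (q - q') k • bd (w k) := by
      simp only [Matrix.vecMul, dotProduct, Finset.sum_smul]
      rw [Finset.sum_comm, ← Finset.sum_add_distrib]
      refine Finset.sum_congr rfl fun k _ => ?_
      conv_lhs => rw [haw k]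
      rw [smul_add, Finset.smul_sum]
      congr 1
      exact Finset.sum_congr rfl fun l _ => by rw [smul_smul]; rfl
    rw [h2, h1]
    simp
  have hU : IsUnit A := Matrix.vecMul_injective_iff_isUnit.1 hA
  have hdet := (Matrix.isUnit_iff_isUnit_det A).1 hU
  obtain ⟨r, u, hr⟩ := hb z hz
  refine ⟨Matrix.vecMul r A⁻¹, u - ∑ k, (Matrix.vecMul r A⁻¹) k • w k, ?_⟩
  have h3 : ∑ k, (Matrix.vecMul r A⁻¹) k • c k =
      ∑ l, r l • b l + ∑ k, (Matrix.vecMul r A⁻¹) k • bd (w k) := by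
    have h4 : Matrix.vecMul (Matrix.vecMul r A⁻¹) A = r := by
      rw [Matrix.vecMul_vecMul, Matrix.nonsing_inv_mul _ hdet, Matrix.vecMul_one]
    have h5 : ∀ v : κ → ℚ, ∑ k, v k • c k =
        ∑ l, (Matrix.vecMul v A) l • b l + ∑ k, v k • bd (w k) := by
      intro v
      simp only [Matrix.vecMul, dotProduct, Finset.sum_smul]
      rw [Finset.sum_comm, ← Finset.sum_add_distrib]
      refine Finset.sum_congr rfl fun k _ => ?_
      conv_lhs => rw [haw k]
      rw [smul_add, Finset.smul_sum]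
      congr 1
      exact Finset.sum_congr rfl fun l _ => by rw [smul_smul]; rfl
    have h6 := h5 (Matrix.vecMul r A⁻¹)
    rwa [h4] at h6
  rw [h3, hr, map_sub, map_sum]
  simp only [map_smul]
  abel

namespace Model

variable {Y : Type} [TopologicalSpace Y] (D : Model Y)

/-! ### The balls -/

theorem zero_mem_Sb : (0 : C2) ∈ Sb := by simp [Sb]

open Classical in
/-- the inverse of the blow-down, extended arbitrarily -/
noncomputable def secF (z : C2) : Y :=
  if h : ∀ k, z ≠ D.pt k then D.sec ⟨z, h⟩ else D.ch1 0 ⟨0, zero_mem_Sb⟩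

/-- the polydiscs around the blown up points -/
def Dk (k : Fin 8) : Set C2 := {z | ∀ i, ‖z i - D.pt k i‖ < D.ε}

theorem isBlow : IsBlow D.pi D.secF (range D.pt) D.Dk where
  contr := Convex.isContr convex_univ
  closed := (finite_range D.pt).isClosed
  ci := by
    rw [continuousOn_iff_continuous_domRestrict]
    have hmem : ∀ z : ((range D.pt)ᶜ : Set C2), ∀ k, (z : C2) ≠ D.pt k :=
      fun z k h => z.2 ⟨k, h.symm⟩
    have : ((range D.pt)ᶜ : Set C2).domRestrict D.secF =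
        fun z : ((range D.pt)ᶜ : Set C2) => D.sec ⟨z.1, hmem z⟩ := by
      funext z
      change D.secF z = _
      rw [secF, dif_pos (hmem z)]
    rw [this]
    exact D.sec.continuous.comp (continuous_subtype_val.subtype_mk _)
  πi y hy := by
    have h : ∀ k, y ≠ D.pt k := fun k h => hy ⟨k, h.symm⟩
    rw [secF, dif_pos h, D.pi_sec]
  iπ x hx := by
    have h : ∀ k, D.pi x ≠ D.pt k := fun k h => hx ⟨k, h.symm⟩
    rw [secF, dif_pos h, D.sec_pi]
  open_D k := by
    have : D.Dk k = ⋂ i, {z : C2 | ‖z i - D.pt k i‖ < D.ε} := by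
      ext z; simp [Dk]
    rw [this]
    exact isOpen_iInter_of_finite fun i =>
      isOpen_lt ((continuous_crd i).sub continuous_const).norm continuous_const
  disj k l hkl := Set.disjoint_left.2 fun z hz hz' => hkl (D.disj k l z hz hz')
  sub := by
    rintro _ ⟨k, rfl⟩
    exact mem_iUnion.2 ⟨k, fun i => by rw [sub_self, norm_zero]; exact D.hε⟩

theorem B_eq (k : Fin 8) : D.pi ⁻¹' D.Dk k = range (D.ch1 k) ∪ range (D.ch2 k) := by
  apply Subset.antisymm
  · intro y hy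
    exact D.cover k y hy
  · have hε := D.hε
    have h0 : ∀ c : ℂ, ‖c‖ < 1 → ∀ a : ℂ, ‖a + D.ε * c - a‖ < D.ε := by
      intro c hc a
      rw [add_sub_cancel_left, norm_mul, Complex.norm_real, Real.norm_eq_abs, abs_of_pos hε]
      nlinarith
    rintro y (⟨z, rfl⟩ | ⟨z, rfl⟩)
    · change ∀ i, ‖D.pi (D.ch1 k z) i - D.pt k i‖ < D.ε
      rw [D.pi_ch1, Fin.forall_fin_two]
      exact ⟨h0 _ z.2.1 _, h0 _ z.2.2 _⟩
    · change ∀ i, ‖D.pi (D.ch2 k z) i - D.pt k i‖ < D.ε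
      rw [D.pi_ch2, Fin.forall_fin_two]
      exact ⟨h0 _ z.2.2 _, h0 _ z.2.1 _⟩

theorem inter_eq (k : Fin 8) {G : Y → C2} (hG : ∀ z : Sb, G (D.ch1 k z) = z) :
    range (D.ch1 k) ∩ range (D.ch2 k) = range (D.ch1 k) ∩ G ⁻¹' {z | z 1 ≠ 0} := by
  ext y
  constructor
  · rintro ⟨⟨z, rfl⟩, h⟩
    refine ⟨⟨z, rfl⟩, ?_⟩
    rw [mem_preimage, hG]
    exact (D.inter k z).1 h
  · rintro ⟨⟨z, rfl⟩, h⟩
    rw [mem_preimage, hG] at h
    exact ⟨⟨z, rfl⟩, (D.inter k z).2 h⟩

theorem contr1 (k : Fin 8) : IsContr (range (D.ch1 k)) := by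
  obtain ⟨G, F, h, -, -⟩ := exists_homeoOn (D.emb1 k) ⟨0, zero_mem_Sb⟩
  exact h.isContr isContr_Sb

theorem contr2 (k : Fin 8) : IsContr (range (D.ch2 k)) := by
  obtain ⟨G, F, h, -, -⟩ := exists_homeoOn (D.emb2 k) ⟨0, zero_mem_Sb⟩
  exact h.isContr isContr_Sb

theorem circ12 (k : Fin 8) : ∃ s : Y → ℂ, IsCirc (range (D.ch1 k) ∩ range (D.ch2 k)) s := by
  obtain ⟨G, F, h, hG, -⟩ := exists_homeoOn (D.emb1 k) ⟨0, zero_mem_Sb⟩
  refine ⟨fun y => G y 1, ?_⟩
  have hopen := (D.emb1 k).isOpen_range.inter (D.emb2 k).isOpen_range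
  rw [D.inter_eq k hG] at hopen ⊢
  exact (h.restrict {z | z 1 ≠ 0}).isCirc hopen isCirc_Sb

theorem acyc_B_zero (k : Fin 8) : Acyc (D.pi ⁻¹' D.Dk k) 0 := by
  obtain ⟨s, hs⟩ := D.circ12 k
  rw [B_eq]
  exact two_acyc_zero (D.emb1 k).isOpen_range (D.emb2 k).isOpen_range (D.contr1 k) (D.contr2 k) hs

theorem acyc_B (k : Fin 8) (n : ℕ) : Acyc (D.pi ⁻¹' D.Dk k) (n + 2) := by
  obtain ⟨s, hs⟩ := D.circ12 k
  rw [B_eq]
  exact two_acyc (D.emb1 k).isOpen_range (D.emb2 k).isOpen_range (D.contr1 k) (D.contr2 k) hs n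

theorem exists_gen (k : Fin 8) : ∃ b : Chain Y 2, ∀ z ∈ Ch (D.pi ⁻¹' D.Dk k) 2, bd z = 0 →
    ∃ q : ℚ, ∃ w, bd w = z - q • b := by
  obtain ⟨s, hs⟩ := D.circ12 k
  rw [B_eq]
  by_cases h : ∃ b ∈ Ch (range (D.ch1 k) ∪ range (D.ch2 k)) 2, bd b = 0 ∧
      ¬ ∃ w ∈ Ch (range (D.ch1 k) ∪ range (D.ch2 k)) 3, bd w = b
  · obtain ⟨b, hb, hbb, hn⟩ := h
    refine ⟨b, fun z hz hbz => ?_⟩
    rcases two_dim (D.emb1 k).isOpen_range (D.emb2 k).isOpen_range (D.contr1 k) (D.contr2 k) hs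
      hz hbz hb hbb with h' | ⟨q, w, -, hw⟩
    · exact absurd h' hn
    · exact ⟨q, w, hw⟩
  · refine ⟨0, fun z hz hbz => ?_⟩
    by_contra hn
    refine h ⟨z, hz, hbz, ?_⟩
    rintro ⟨w, -, hw⟩
    exact hn ⟨0, w, by rw [hw]; simp⟩

include D in
theorem acyc_zero : Acyc (Set.univ : Set Y) 0 := blow_acyc D.isBlow D.acyc_B_zero

include D in
theorem acyc_two (n : ℕ) : Acyc (Set.univ : Set Y) (n + 2) :=
  blow_acyc D.isBlow fun k => D.acyc_B k n

/-! ### The tubes -/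

theorem zero_mem_Rb : (0 : C2) ∈ Rb := by simp [Rb]

/-- inverse of a tube chart -/
noncomputable def tbG (j : Fin 8) : Y → C2 :=
  (exists_homeoOn (D.emb j) ⟨0, zero_mem_Rb⟩).choose

theorem tbG_spec (j : Fin 8) : ∃ F : C2 → Y, HomeoOn (range (D.tb j)) Rb (D.tbG j) F ∧
    (∀ z : Rb, D.tbG j (D.tb j z) = z) ∧ ∀ z : Rb, F z = D.tb j z :=
  (exists_homeoOn (D.emb j) ⟨0, zero_mem_Rb⟩).choose_spec

theorem tbG_tb (j : Fin 8) (z : Rb) : D.tbG j (D.tb j z) = z := (D.tbG_spec j).choose_spec.2.1 z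

/-- the transversal coordinate -/
noncomputable def tr (j : Fin 8) (y : Y) : ℂ := D.tbG j y 1

theorem XN_eq (j : Fin 8) : D.X ∩ D.N j = range (D.tb j) ∩ D.tbG j ⁻¹' {z | z 1 ≠ 0} := by
  ext y
  constructor
  · rintro ⟨hX, z, rfl⟩
    refine ⟨⟨z, rfl⟩, ?_⟩
    rw [mem_preimage, tbG_tb]
    intro h
    refine hX j ?_
    rw [D.ell_eq]
    exact ⟨z, h, rfl⟩
  · rintro ⟨⟨z, rfl⟩, h⟩
    rw [mem_preimage, tbG_tb] at h
    refine ⟨fun i hi => ?_, z, rfl⟩
    rw [D.ell_eq] at hi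
    obtain ⟨z', hz', he⟩ := hi
    by_cases hij : i = j
    · subst hij
      rw [(D.emb i).injective he] at hz'
      exact h hz'
    · exact Set.disjoint_left.1 (D.tb_disj i j hij) ⟨z', he⟩ ⟨z, rfl⟩

theorem isOpen_X : IsOpen D.X := by
  have : D.X = ⋂ j, (D.ell j)ᶜ := by ext y; simp [X]
  rw [this]
  exact isOpen_iInter_of_finite fun j => (D.closed j).isOpen_compl

theorem isTubes : IsTubes D.X D.N D.tr where
  open_X := D.isOpen_X
  open_N j := (D.emb j).isOpen_range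
  disj := D.tb_disj
  cover := by
    ext y
    simp only [mem_union, mem_iUnion, mem_univ, iff_true]
    by_cases h : y ∈ D.X
    · exact Or.inl h
    · right
      have : ∃ j, y ∈ D.ell j := by
        by_contra hn
        exact h fun j hj => hn ⟨j, hj⟩
      obtain ⟨j, hj⟩ := this
      rw [D.ell_eq] at hj
      obtain ⟨z, -, hz⟩ := hj
      exact ⟨j, z, hz⟩
  circ j := by
    obtain ⟨F, h, -, -⟩ := D.tbG_spec j
    have hopen := D.isOpen_X.inter (D.emb j).isOpen_range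
    change IsCirc (D.X ∩ D.N j) _
    change IsOpen (D.X ∩ D.N j) at hopen
    rw [D.XN_eq j] at hopen ⊢
    exact (h.restrict {z | z 1 ≠ 0}).isCirc hopen isCirc_Rb

theorem contr_N (j : Fin 8) : IsContr (D.N j) := by
  obtain ⟨F, h, -, -⟩ := D.tbG_spec j
  exact h.isContr isContr_Rb

/-! ### The spheres -/

open Classical in
/-- the parametrisation of an exceptional curve without three points, extended arbitrarily -/
noncomputable def thF (k : Fin 8) (w : ℂ) : Y :=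
  if h : w ∈ Pants then D.th k ⟨w, h⟩ else D.ch1 0 ⟨0, zero_mem_Sb⟩

theorem thF_eq (k : Fin 8) {w : ℂ} (h : w ∈ Pants) : D.thF k w = D.th k ⟨w, h⟩ := dif_pos h

theorem pants_eq : ({0, 1}ᶜ : Set ℂ) = Pants := by
  ext w
  simp [Pants]

theorem cont_thF (k : Fin 8) : ContinuousOn (D.thF k) ({0, 1}ᶜ : Set ℂ) := by
  rw [pants_eq, continuousOn_iff_continuous_domRestrict]
  have : Pants.domRestrict (D.thF k) = D.th k := by
    funext w
    exact D.thF_eq k w.2
  rw [this]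
  exact (D.th k).continuous

/-- the circle near the end `i`: a cycle in the tube with winding number `e` -/
theorem end_cycle (k : Fin 8) (i : Fin 3) (γ : Chain ℂ 1) (hγ : bd γ = 0) (S : Set ℂ)
    (hS : γ ∈ Ch S 1) (v : ℂ → ℂ) (hv : ContinuousOn v S) {δ : ℝ} {φ : ℂ → ℂ}
    (hφ : ContinuousOn φ (Metric.ball 0 δ)) (hφ0 : ∀ v ∈ Metric.ball (0 : ℂ) δ, φ v ≠ 0)
    (hnear : ∀ v, v ≠ 0 → v ∈ Metric.ball (0 : ℂ) δ →
      ∃ h : loc i v ∈ Pants, ∃ z : Rb, D.tb (D.inc k i) z = D.th k ⟨loc i v, h⟩ ∧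
        z.1 1 = v * φ v)
    (hv0 : ∀ w ∈ S, v w ≠ 0) (hvδ : ∀ w ∈ S, v w ∈ Metric.ball (0 : ℂ) δ)
    (hloc : ∀ w ∈ S, loc i (v w) = w) :
    ∃ u ∈ Ch (D.N (D.inc k i)) 2, bd u = pushOn (D.cont_thF k) γ ∧
      theta (D.tr (D.inc k i)) (bd u) = theta v γ := by
  have hSP : S ⊆ ({0, 1}ᶜ : Set ℂ) := by
    intro w hw
    obtain ⟨h, -⟩ := hnear _ (hv0 w hw) (hvδ w hw)
    rw [hloc w hw] at h
    rw [pants_eq]
    exact h
  have hkey : ∀ w ∈ S, ∃ z : Rb, D.tb (D.inc k i) z = D.thF k w ∧ z.1 1 = v w * φ (v w) := by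
    intro w hw
    obtain ⟨h, z, hz, hz1⟩ := hnear _ (hv0 w hw) (hvδ w hw)
    refine ⟨z, ?_, hz1⟩
    have hw' : w ∈ Pants := by rw [← pants_eq]; exact hSP hw
    rw [hz, D.thF_eq k hw']
    congr 1
    exact Subtype.ext (hloc w hw)
  have hmem : pushOn (D.cont_thF k) γ ∈ Ch (D.N (D.inc k i)) 1 := by
    refine pushOn_mem (D.cont_thF k) hSP (fun w hw => ?_) hS
    obtain ⟨z, hz, -⟩ := hkey w hw
    exact ⟨z, hz⟩
  have hγP : γ ∈ Ch ({0, 1}ᶜ : Set ℂ) 1 := Ch_mono hSP _ hS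
  obtain ⟨u, hu, hub⟩ := (D.contr_N (D.inc k i)).acyc 0 _ hmem (by
    rw [← pushOn_bd (D.cont_thF k) hγP, hγ, map_zero])
  refine ⟨u, hu, hub, ?_⟩
  rw [hub, theta_pushOn (D.cont_thF k) _ hγP]
  have e1 : theta (fun w => D.tr (D.inc k i) (D.thF k w)) γ =
      theta (fun w => v w * φ (v w)) γ := by
    refine theta_congr (fun w hw => ?_) hS
    obtain ⟨z, hz, hz1⟩ := hkey w hw
    rw [← hz, tr, tbG_tb, hz1]
  rw [e1, theta_mul (g' := fun w => φ (v w)) hv hv0 (hφ.comp hv hvδ)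
    (fun w hw => hφ0 _ (hvδ w hw)) hS]
  have e2 : theta (fun w => φ (v w)) γ = 0 := by
    rw [← theta_pushOn hv φ hS]
    refine theta_convex (convex_ball (0 : ℂ) δ) hφ hφ0 (pushOn_mem hv Subset.rfl hvδ hS) ?_
    rw [← pushOn_bd hv hS, hγ, map_zero]
  rw [e2, add_zero]

/-- the three parts of the sphere -/
theorem sphere (k : Fin 8) : ∃ cX ∈ Ch D.X 2, ∃ u : Fin 3 → Chain Y 2,
    (∀ i, u i ∈ Ch (D.N (D.inc k i)) 2) ∧ bd cX + ∑ i, bd (u i) = 0 ∧
      ∀ i, theta (D.tr (D.inc k i)) (bd (u i)) = -1 := by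
  obtain ⟨δ₀, φ₀, hδ₀, hφ₀, hφ₀', hn₀⟩ := D.near k 0
  obtain ⟨δ₁, φ₁, hδ₁, hφ₁, hφ₁', hn₁⟩ := D.near k 1
  obtain ⟨δ₂, φ₂, hδ₂, hφ₂, hφ₂', hn₂⟩ := D.near k 2
  set r : ℝ := min (min δ₀ δ₁) 1 / 2 with hr
  have hm : 0 < min (min δ₀ δ₁) 1 := lt_min (lt_min hδ₀ hδ₁) one_pos
  have hr0 : 0 < r := by positivity
  have hrδ₀ : r < δ₀ := by
    have := (min_le_left (min δ₀ δ₁) 1).trans (min_le_left δ₀ δ₁)
    rw [hr]; linarith
  have hrδ₁ : r < δ₁ := by
    have := (min_le_left (min δ₀ δ₁) 1).trans (min_le_right δ₀ δ₁)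
    rw [hr]; linarith
  have hr1 : r < 1 := by
    have := min_le_right (min δ₀ δ₁) 1
    rw [hr]; linarith
  set R : ℝ := 2 + 1 / δ₂ with hR
  have hR1 : 1 < R := by
    have : 0 < 1 / δ₂ := by positivity
    rw [hR]; linarith
  have hR0 : 0 < R := by linarith
  have hRδ : R⁻¹ < δ₂ := by
    rw [inv_lt_comm₀ hR0 hδ₂, ← one_div, hR]
    linarith
  obtain ⟨w, hw, hbw⟩ := pants (p₁ := 0) (p₂ := 1) (r₁ := r) (r₂ := r) (R := R) hr0 hr0
    (by simpa using hr1) (by simpa using hr1) (by simpa using hR0) (by simpa using hR1)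
  -- the three ends
  obtain ⟨u₀, hu₀, hbu₀, ht₀⟩ := D.end_cycle k 0 (circ 0 r) (bd_circ _ _)
    {x | ‖x - 0‖ = |r|} (circ_mem fun x hx => hx) (fun x => x - 0)
    (continuous_id.sub continuous_const).continuousOn hφ₀ hφ₀' hn₀
    (fun x hx h => by
      have hx' : ‖x - 0‖ = |r| := hx
      rw [h, norm_zero, eq_comm, abs_eq_zero] at hx'
      exact hr0.ne' hx')
    (fun x hx => by
      have hx' : ‖x - 0‖ = |r| := hx
      rw [mem_ball_zero_iff, hx', abs_of_pos hr0]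
      exact hrδ₀)
    (fun x _ => by simp [loc])
  obtain ⟨u₁, hu₁, hbu₁, ht₁⟩ := D.end_cycle k 1 (circ 1 r) (bd_circ _ _)
    {x | ‖x - 1‖ = |r|} (circ_mem fun x hx => hx) (fun x => x - 1)
    (continuous_id.sub continuous_const).continuousOn hφ₁ hφ₁' hn₁
    (fun x hx h => by
      have hx' : ‖x - 1‖ = |r| := hx
      rw [h, norm_zero, eq_comm, abs_eq_zero] at hx'
      exact hr0.ne' hx')
    (fun x hx => by
      have hx' : ‖x - 1‖ = |r| := hx
      rw [mem_ball_zero_iff, hx', abs_of_pos hr0]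
      exact hrδ₁)
    (fun x _ => by simp [loc])
  have hne2 : ∀ x ∈ {x : ℂ | ‖x - 0‖ = |R|}, x ≠ 0 := by
    intro x hx h
    have hx' : ‖x - 0‖ = |R| := hx
    rw [h, sub_zero, norm_zero, eq_comm, abs_eq_zero] at hx'
    exact hR0.ne' hx'
  have hS2 : circ 0 R ∈ Ch {x : ℂ | ‖x - 0‖ = |R|} 1 := circ_mem fun x hx => hx
  obtain ⟨u₂, hu₂, hbu₂, ht₂⟩ := D.end_cycle k 2 (circ 0 R) (bd_circ _ _)
    {x | ‖x - 0‖ = |R|} hS2 (fun x => x⁻¹)
    (continuousOn_id.inv₀ hne2) hφ₂ hφ₂' hn₂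
    (fun x hx => inv_ne_zero (hne2 x hx))
    (fun x hx => by
      have hx' : ‖x - 0‖ = |R| := hx
      rw [sub_zero] at hx'
      rw [mem_ball_zero_iff, norm_inv, hx', abs_of_pos hR0]
      exact hRδ)
    (fun x _ => by simp [loc])
  have e₀ : theta (fun x : ℂ => x - 0) (circ 0 r) = 1 := theta_circ_centre hr0
  have e₁ : theta (fun x : ℂ => x - 1) (circ 1 r) = 1 := theta_circ_centre hr0
  have e₂ : theta (fun x : ℂ => x⁻¹) (circ 0 R) = -1 := by
    have h1 : theta (fun x : ℂ => x⁻¹) (circ 0 R) = - theta (fun x : ℂ => x) (circ 0 R) :=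
      theta_inv continuousOn_id hne2 hS2
    have h2 : theta (fun x : ℂ => x) (circ 0 R) = theta (fun x : ℂ => x - 0) (circ 0 R) :=
      theta_congr (fun x _ => by rw [sub_zero]) hS2
    rw [h1, h2, theta_circ_centre hR0]
  refine ⟨pushOn (D.cont_thF k) w, pushOn_mem (D.cont_thF k) Subset.rfl (fun x hx => ?_) hw,
    ![-u₀, -u₁, u₂], ?_, ?_, ?_⟩
  · have hx' : x ∈ Pants := by rw [← pants_eq]; exact hx
    rw [D.thF_eq k hx']
    exact fun j => D.th_mem k _ j
  · intro i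
    fin_cases i
    · exact Submodule.neg_mem _ hu₀
    · exact Submodule.neg_mem _ hu₁
    · exact hu₂
  · rw [← pushOn_bd (D.cont_thF k) hw, hbw, map_sub, map_add, ← hbu₀, ← hbu₁, ← hbu₂,
      Fin.sum_univ_three]
    simp only [Matrix.cons_val_zero, Matrix.cons_val_one, Matrix.cons_val_two, map_neg,
      Matrix.head_cons, Matrix.tail_cons]
    abel
  · intro i
    fin_cases i
    · change theta (D.tr (D.inc k 0)) (bd (-u₀)) = -1
      rw [map_neg, map_neg, ht₀, e₀]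
    · change theta (D.tr (D.inc k 1)) (bd (-u₁)) = -1
      rw [map_neg, map_neg, ht₁, e₁]
    · change theta (D.tr (D.inc k 2)) (bd u₂) = -1
      rw [ht₂, e₂]

/-- minus the incidence matrix -/
def Mat : Matrix (Fin 8) (Fin 8) ℚ := Matrix.of fun k j => ∑ i : Fin 3, if D.inc k i = j then -1 else 0

theorem mat_mulVec (m : Fin 8 → ℚ) (k : Fin 8) :
    (D.Mat.mulVec m) k = -(m (D.inc k 0) + m (D.inc k 1) + m (D.inc k 2)) := by
  simp only [Matrix.mulVec, dotProduct, Mat, Matrix.of_apply, Finset.sum_mul]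
  rw [Finset.sum_comm]
  simp only [ite_mul, zero_mul, Finset.sum_ite_eq, Finset.mem_univ, if_true, neg_one_mul]
  rw [Fin.sum_univ_three]
  ring

theorem mat_unit : IsUnit D.Mat := by
  rw [← Matrix.mulVec_injective_iff_isUnit]
  intro m m' h
  rw [← sub_eq_zero]
  apply D.inv
  intro k
  have h1 : (D.Mat.mulVec (m - m')) k = 0 := by
    rw [Matrix.mulVec_sub]
    have := congrFun h k
    simp only [Pi.sub_apply]
    rw [this, sub_self]
  rw [mat_mulVec, neg_eq_zero] at h1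
  exact h1

/-- the surface is acyclic -/
theorem acyc (n : ℕ) : Acyc D.X n := by
  classical
  choose cX hcX u huN hbd hth using fun k => D.sphere k
  let cN : Fin 8 → Fin 8 → Chain Y 2 := fun k j => ∑ i : Fin 3, if D.inc k i = j then u k i else 0
  have hcyc : IsCycles D.X D.N D.tr cX cN D.Mat := by
    refine ⟨hcX, ?_, ?_, ?_⟩
    · intro k j
      refine Submodule.sum_mem _ fun i _ => ?_
      split_ifs with h
      · rw [← h]; exact huN k i
      · exact Submodule.zero_mem _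
    · intro k
      rw [← hbd k]
      congr 1
      simp only [cN, map_sum]
      rw [Finset.sum_comm]
      refine Finset.sum_congr rfl fun i _ => ?_
      rw [Finset.sum_eq_single (D.inc k i)]
      · rw [if_pos rfl]
      · intro j _ hj
        rw [if_neg (Ne.symm hj), map_zero]
      · intro h
        exact absurd (Finset.mem_univ _) h
    · intro k j
      simp only [cN, map_sum, Mat, Matrix.of_apply, Rat.cast_sum]
      refine Finset.sum_congr rfl fun i _ => ?_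
      by_cases h : D.inc k i = j
      · rw [if_pos h, if_pos h, ← h, hth k i]
        simp
      · rw [if_neg h, if_neg h]
        simp
  have hinj : ∀ q : Fin 8 → ℚ, (∀ j, ∑ k, q k * D.Mat k j = 0) → q = 0 := by
    intro q hq
    have h1 := Matrix.vecMul_injective_iff_isUnit.2 D.mat_unit
    apply h1
    change Matrix.vecMul q D.Mat = Matrix.vecMul 0 D.Mat
    rw [Matrix.zero_vecMul]
    funext j
    exact hq j
  have hsurj : ∀ v : Fin 8 → ℚ, ∃ q : Fin 8 → ℚ, ∀ j, ∑ k, q k * D.Mat k j = v j := by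
    intro v
    have hdet := (Matrix.isUnit_iff_isUnit_det _).1 D.mat_unit
    refine ⟨Matrix.vecMul v D.Mat⁻¹, fun j => ?_⟩
    have h4 : Matrix.vecMul (Matrix.vecMul v D.Mat⁻¹) D.Mat = v := by
      rw [Matrix.vecMul_vecMul, Matrix.nonsing_inv_mul _ hdet, Matrix.vecMul_one]
    exact congrFun h4 j
  refine gysin D.isTubes hcyc hinj hsurj D.acyc_zero D.acyc_two ?_ n
  intro z hz
  choose b hb using fun k => D.exists_gen k
  refine span_of_card b (fun k => cX k + ∑ j, cN k j)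
    (fun z hz => blow_span D.isBlow b hb hz) (fun k => ?_) (fun q hq => ?_) hz
  · rw [map_add, map_sum]
    exact hcyc.bd_eq k
  · obtain ⟨w, hw⟩ := hq
    refine hinj q fun j => tube_inj D.isTubes hcyc (z := 0) (Submodule.zero_mem _) (q := q)
      (w := -w) ?_ j
    rw [hw, map_neg, add_neg_cancel]

end Model

/-- acyclicity of a space embedded with an acyclic image -/
theorem acyc_of_embedding {S Y : Type*} [TopologicalSpace S] [TopologicalSpace Y] {f : S → Y}
    (hf : IsEmbedding f) {A : Set Y} (hA : range f = A) {n : ℕ} (h : Acyc A n) :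
    Acyc (Set.univ : Set S) n := by
  classical
  subst hA
  rcases isEmpty_or_nonempty S with hS | ⟨⟨x₀⟩⟩
  · intro z hz _
    have hz0 : z = 0 := by
      have : (Set.univ : Set S) = ∅ := Set.univ_eq_empty_iff.2 hS
      rw [this, Ch_empty, Submodule.mem_bot] at hz
      exact hz
    exact ⟨0, Submodule.zero_mem _, by rw [map_zero, hz0]⟩
  · let e : S ≃ₜ range f := hf.toHomeomorph
    let g : Y → S := fun y => if h : y ∈ range f then e.symm ⟨y, h⟩ else x₀
    have hg : ∀ x, g (f x) = x := by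
      intro x
      have hx : f x ∈ range f := ⟨x, rfl⟩
      change (if h : f x ∈ range f then e.symm ⟨f x, h⟩ else x₀) = x
      rw [dif_pos hx]
      exact e.symm_apply_apply x
    have hH : HomeoOn (Set.univ : Set S) (range f) f g := by
      refine ⟨hf.continuous.continuousOn, ?_, fun x _ => ⟨x, rfl⟩, fun _ _ => trivial,
        fun x _ => hg x, ?_⟩
      · rw [continuousOn_iff_continuous_domRestrict]
        have : (range f).domRestrict g = e.symm := by
          funext y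
          change (if h : (y : Y) ∈ range f then e.symm ⟨y, h⟩ else x₀) = _
          rw [dif_pos y.2]
        rw [this]
        exact e.symm.continuous
      · rintro _ ⟨x, rfl⟩
        rw [hg]
    exact hH.acyc h

end Pool.Agent.Lib.MP_ee7b66_ag.Top
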