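import Pool.Agent.Lib.MP_ee7b66_ag.Top.Basic

/-!
# Formal chains of tuples (the simplicial chains of the full simplex on a set `K`)

The barycentric subdivision and the chain homotopies are first constructed on tuples, by recursion
with the cone operator.
-/

set_option autoImplicit false

open Set

namespace Pool.Agent.Lib.MP_ee7b66_ag.Top

/-- formal rational chains of `(n+1)`-tuples of elements of `K` -/
abbrev Tup (K : Type*) (n : ℕ) : Type _ := (Fin (n + 1) → K) →₀ ℚ

section

variable {K K' K'' : Type*}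

/-- the boundary of a tuple -/
noncomputable def bdTS {n : ℕ} (v : Fin (n + 2) → K) : Tup K n :=
  ∑ i : Fin (n + 2), (-1 : ℚ) ^ (i : ℕ) • Finsupp.single (v ∘ Fin.succAbove i) 1

/-- the boundary -/
noncomputable def bdT {n : ℕ} : Tup K (n + 1) →ₗ[ℚ] Tup K n :=
  Finsupp.linearCombination ℚ bdTS

/-- the augmentation -/
noncomputable def degT : Tup K 0 →ₗ[ℚ] ℚ :=
  Finsupp.linearCombination ℚ fun _ => (1 : ℚ)

/-- the cone -/
noncomputable def coneT (b : K) {n : ℕ} : Tup K n →ₗ[ℚ] Tup K (n + 1) :=
  Finsupp.lmapDomain ℚ ℚ fun v => (Fin.cons b v : Fin (n + 2) → K)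

/-- the chain map of a map -/
noncomputable def mapT (f : K → K') {n : ℕ} : Tup K n →ₗ[ℚ] Tup K' n :=
  Finsupp.lmapDomain ℚ ℚ fun v => f ∘ v

@[simp] theorem bdT_single {n : ℕ} (v : Fin (n + 2) → K) (c : ℚ) :
    bdT (Finsupp.single v c) = c • bdTS v := Finsupp.linearCombination_single _ _ _

@[simp] theorem degT_single (v : Fin 1 → K) (c : ℚ) : degT (Finsupp.single v c) = c := by
  simp [degT, Finsupp.linearCombination_single]

@[simp] theorem coneT_single (b : K) {n : ℕ} (v : Fin (n + 1) → K) (c : ℚ) :
    coneT b (Finsupp.single v c) = Finsupp.single (Fin.cons b v : Fin (n + 2) → K) c :=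
  Finsupp.mapDomain_single

@[simp] theorem mapT_single (f : K → K') {n : ℕ} (v : Fin (n + 1) → K) (c : ℚ) :
    mapT f (Finsupp.single v c) = Finsupp.single (f ∘ v) c := Finsupp.mapDomain_single

theorem tup_ext {n : ℕ} {M : Type*} [AddCommGroup M] [Module ℚ M] {f g : Tup K n →ₗ[ℚ] M}
    (h : ∀ v, f (Finsupp.single v 1) = g (Finsupp.single v 1)) : f = g := by
  apply Finsupp.lhom_ext
  intro σ c
  have : Finsupp.single σ c = c • (Finsupp.single σ (1 : ℚ)) := by simp
  rw [this, map_smul, map_smul, h]

theorem bdT_bdTS {n : ℕ} (v : Fin (n + 3) → K) : bdT (bdTS v) = 0 := by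
  have h1 : bdT (bdTS v) = ∑ ij : Fin (n + 2) × Fin (n + 3),
      ((-1 : ℚ) ^ (ij.1 : ℕ) * (-1 : ℚ) ^ (ij.2 : ℕ)) •
        (Finsupp.single (fun k => v (Fin.succAbove ij.2 (Fin.succAbove ij.1 k))) 1 :
          Tup K n) := by
    rw [Fintype.sum_prod_type, Finset.sum_comm]
    rw [bdTS, map_sum]
    refine Finset.sum_congr rfl fun j _ => ?_
    rw [map_smul, bdT_single, one_smul, bdTS, Finset.smul_sum]
    refine Finset.sum_congr rfl fun i _ => ?_
    rw [smul_smul, mul_comm]
    rfl
  rw [h1]
  let P := Fin (n + 2) × Fin (n + 3)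
  let S : Finset P := {ij : P | (ij.2 : ℕ) ≤ (ij.1 : ℕ)}
  rw [← Finset.sum_add_sum_compl S, ← eq_neg_iff_add_eq_zero, ← Finset.sum_neg_distrib]
  let φ : ∀ ij : P, ij ∈ S → P := fun ij hij =>
    (Fin.castLT ij.2 (lt_of_le_of_lt (Finset.mem_filter.mp hij).right (Fin.is_lt ij.1)), ij.1.succ)
  apply Finset.sum_bij φ
  · intro ij hij
    simp_rw [S, φ, Finset.compl_filter, Finset.mem_filter_univ, Fin.val_succ,
      Fin.val_castLT] at hij ⊢
    omega
  · rintro ⟨i, j⟩ hij ⟨i', j'⟩ hij' h
    rw [Prod.mk_inj]
    exact ⟨by simpa [φ] using! congr_arg Prod.snd h,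
      by simpa [φ, Fin.castSucc_castLT] using! congr_arg Fin.castSucc (congr_arg Prod.fst h)⟩
  · rintro ⟨i', j'⟩ hij'
    simp_rw [S, Finset.compl_filter, Finset.mem_filter_univ, not_le] at hij'
    refine ⟨(j'.pred <| ?_, Fin.castSucc i'), ?_, ?_⟩
    · rintro rfl
      simp only [Fin.val_zero, not_lt_zero] at hij'
    · simpa [S] using! Nat.le_sub_one_of_lt hij'
    · simp only [φ, Fin.castLT_castSucc, Fin.succ_pred]
  · rintro ⟨i, j⟩ hij
    have hle : (j : ℕ) ≤ i := by simpa [S] using! hij
    simp only [φ, Fin.val_succ, Fin.val_castLT]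
    rw [← neg_smul]
    congr 1
    · rw [pow_succ]; ring
    · congr 1
      funext k
      exact congrArg v (succAbove_comm i j hle k)

theorem bdT_bdT {n : ℕ} (z : Tup K (n + 2)) : bdT (bdT z) = 0 := by
  have : (bdT (K := K) (n := n)).comp bdT = 0 := by
    apply tup_ext
    intro v
    simp [bdT_bdTS]
  exact LinearMap.congr_fun this z

@[simp] theorem degT_bdT (z : Tup K 1) : degT (bdT z) = 0 := by
  have : (degT (K := K)).comp bdT = 0 := by
    apply tup_ext
    intro v
    simp [bdTS, Fin.sum_univ_two]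
  exact LinearMap.congr_fun this z

theorem bdT_coneT (b : K) {n : ℕ} (z : Tup K (n + 1)) :
    bdT (coneT b z) = z - coneT b (bdT z) := by
  have : (bdT (K := K)).comp (coneT b (n := n + 1)) = LinearMap.id - (coneT b).comp bdT := by
    apply tup_ext
    intro v
    simp only [LinearMap.comp_apply, coneT_single, bdT_single, one_smul, LinearMap.sub_apply,
      LinearMap.id_apply]
    rw [bdTS, Fin.sum_univ_succ, bdTS, map_sum, sub_eq_add_neg, ← Finset.sum_neg_distrib]
    congr 1
    · simp [Fin.succAbove_zero]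
    · refine Finset.sum_congr rfl fun i _ => ?_
      rw [map_smul, coneT_single, Fin.val_succ, pow_succ, mul_neg_one, neg_smul]
      congr 3
      funext k
      refine Fin.cases ?_ (fun k => ?_) k
      · simp
      · simp [Fin.succ_succAbove_succ]
  exact LinearMap.congr_fun this z

theorem bdT_coneT_zero (b : K) (z : Tup K 0) :
    bdT (coneT b z) = z - degT z • Finsupp.single (fun _ => b) 1 := by
  have : (bdT (K := K)).comp (coneT b (n := 0)) =
      LinearMap.id - degT.smulRight (Finsupp.single (fun _ => b) 1) := by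
    apply tup_ext
    intro v
    simp only [LinearMap.comp_apply, coneT_single, bdT_single, one_smul, LinearMap.sub_apply,
      LinearMap.id_apply, LinearMap.smulRight_apply, degT_single]
    rw [bdTS, Fin.sum_univ_two, sub_eq_add_neg]
    congr 1
    · simp [Fin.succAbove_zero]
    · simp only [Fin.val_one, pow_one, neg_smul, one_smul]
      congr 2
      funext k
      fin_cases k
      rfl
  exact LinearMap.congr_fun this z

theorem mapT_bdT (f : K → K') {n : ℕ} (z : Tup K (n + 1)) :
    mapT f (bdT z) = bdT (mapT f z) := by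
  have : (mapT f).comp (bdT (K := K) (n := n)) = bdT.comp (mapT f) := by
    apply tup_ext
    intro v
    simp [bdTS, map_sum, Function.comp_assoc]
  exact LinearMap.congr_fun this z

theorem mapT_comp (g : K' → K'') (f : K → K') {n : ℕ} (z : Tup K n) :
    mapT g (mapT f z) = mapT (g ∘ f) z := by
  have : (mapT g).comp (mapT f (n := n)) = mapT (g ∘ f) := by
    apply tup_ext
    intro v
    simp [Function.comp_assoc]
  exact LinearMap.congr_fun this z

@[simp] theorem mapT_id {n : ℕ} (z : Tup K n) : mapT (id : K → K) z = z := by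
  have : mapT (id : K → K) (n := n) = LinearMap.id := by
    apply tup_ext
    intro v
    simp
  exact LinearMap.congr_fun this z

@[simp] theorem degT_mapT (f : K → K') (z : Tup K 0) : degT (mapT f z) = degT z := by
  have : degT.comp (mapT f (n := 0)) = degT := by
    apply tup_ext
    intro v
    simp
  exact LinearMap.congr_fun this z

theorem mapT_coneT (f : K → K') (b : K) {n : ℕ} (z : Tup K n) :
    mapT f (coneT b z) = coneT (f b) (mapT f z) := by
  have : (mapT f).comp (coneT b (n := n)) = (coneT (f b)).comp (mapT f) := by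
    apply tup_ext
    intro v
    simp only [LinearMap.comp_apply, coneT_single, mapT_single]
    congr 1
    funext k
    refine Fin.cases ?_ (fun k => ?_) k <;> simp
  exact LinearMap.congr_fun this z

/-! ### The subdivision of tuples -/

/-- the barycentric subdivision of a tuple (`b` = barycenter) -/
noncomputable def sdS (b : ∀ n, (Fin (n + 1) → K) → K) : ∀ n, (Fin (n + 1) → K) → Tup K n
  | 0, v => Finsupp.single v 1
  | n + 1, v => coneT (b _ v) (Finsupp.linearCombination ℚ (sdS b n) (bdTS v))

/-- the barycentric subdivision of chains of tuples -/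
noncomputable def sdT (b : ∀ n, (Fin (n + 1) → K) → K) (n : ℕ) : Tup K n →ₗ[ℚ] Tup K n :=
  Finsupp.linearCombination ℚ (sdS b n)

@[simp] theorem sdT_single (b : ∀ n, (Fin (n + 1) → K) → K) (n : ℕ) (v : Fin (n + 1) → K)
    (c : ℚ) : sdT b n (Finsupp.single v c) = c • sdS b n v :=
  Finsupp.linearCombination_single _ _ _

theorem sdS_succ (b : ∀ n, (Fin (n + 1) → K) → K) (n : ℕ) (v : Fin (n + 2) → K) :
    sdS b (n + 1) v = coneT (b _ v) (sdT b n (bdTS v)) := rfl

@[simp] theorem sdT_zero (b : ∀ n, (Fin (n + 1) → K) → K) (z : Tup K 0) : sdT b 0 z = z := by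
  have : sdT b 0 = LinearMap.id := by
    apply tup_ext
    intro v
    simp [sdS]
  exact LinearMap.congr_fun this z

theorem bdT_sdT (b : ∀ n, (Fin (n + 1) → K) → K) (n : ℕ) :
    ∀ z : Tup K (n + 1), bdT (sdT b (n + 1) z) = sdT b n (bdT z) := by
  induction n with
  | zero =>
    intro z
    have : (bdT (K := K)).comp (sdT b 1) = (sdT b 0).comp bdT := by
      apply tup_ext
      intro v
      simp only [LinearMap.comp_apply, sdT_single, bdT_single, one_smul]
      rw [sdS_succ, bdT_coneT_zero, sdT_zero]
      have : degT (bdTS v) = 0 := by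
        have := degT_bdT (Finsupp.single v 1)
        simpa using this
      rw [this, zero_smul, sub_zero]
    exact LinearMap.congr_fun this z
  | succ n ih =>
    intro z
    have : (bdT (K := K)).comp (sdT b (n + 2)) = (sdT b (n + 1)).comp bdT := by
      apply tup_ext
      intro v
      simp only [LinearMap.comp_apply, sdT_single, bdT_single, one_smul]
      rw [sdS_succ, bdT_coneT, ih, bdT_bdTS, map_zero, map_zero, sub_zero]
    exact LinearMap.congr_fun this z

theorem sdT_natural (b : ∀ n, (Fin (n + 1) → K) → K) (b' : ∀ n, (Fin (n + 1) → K') → K')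
    (f : K → K') (hf : ∀ n v, f (b n v) = b' n (f ∘ v)) (n : ℕ) :
    ∀ z : Tup K n, mapT f (sdT b n z) = sdT b' n (mapT f z) := by
  induction n with
  | zero => intro z; rw [sdT_zero, sdT_zero]
  | succ n ih =>
    intro z
    have : (mapT f).comp (sdT b (n + 1)) = (sdT b' (n + 1)).comp (mapT f) := by
      apply tup_ext
      intro v
      simp only [LinearMap.comp_apply, sdT_single, mapT_single, one_smul]
      rw [sdS_succ, mapT_coneT, ih, sdS_succ, hf]
      congr 2
      have := mapT_bdT f (Finsupp.single v (1 : ℚ))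
      simpa using this
    exact LinearMap.congr_fun this z

/-! ### Homotopies by recursion -/

/-- the homotopy between the chain maps `f` and `g` with cone points `c` -/
noncomputable def hoS (f g : ∀ n, Tup K n →ₗ[ℚ] Tup K' n) (c : ∀ n, (Fin (n + 1) → K) → K') :
    ∀ n, (Fin (n + 1) → K) → Tup K' (n + 1)
  | 0, v => coneT (c _ v) (g _ (Finsupp.single v 1) - f _ (Finsupp.single v 1))
  | n + 1, v => coneT (c _ v) (g _ (Finsupp.single v 1) - f _ (Finsupp.single v 1) -
      Finsupp.linearCombination ℚ (hoS f g c n) (bdTS v))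

/-- the homotopy between the chain maps `f` and `g` with cone points `c` -/
noncomputable def hoT (f g : ∀ n, Tup K n →ₗ[ℚ] Tup K' n) (c : ∀ n, (Fin (n + 1) → K) → K')
    (n : ℕ) : Tup K n →ₗ[ℚ] Tup K' (n + 1) :=
  Finsupp.linearCombination ℚ (hoS f g c n)

section

variable (f g : ∀ n, Tup K n →ₗ[ℚ] Tup K' n) (c : ∀ n, (Fin (n + 1) → K) → K')

@[simp] theorem hoT_single (n : ℕ) (v : Fin (n + 1) → K) (a : ℚ) :
    hoT f g c n (Finsupp.single v a) = a • hoS f g c n v :=
  Finsupp.linearCombination_single _ _ _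

theorem hoS_zero (v : Fin 1 → K) :
    hoS f g c 0 v = coneT (c _ v) (g _ (Finsupp.single v 1) - f _ (Finsupp.single v 1)) := rfl

theorem hoS_succ (n : ℕ) (v : Fin (n + 2) → K) :
    hoS f g c (n + 1) v = coneT (c _ v) (g _ (Finsupp.single v 1) - f _ (Finsupp.single v 1) -
      hoT f g c n (bdTS v)) := rfl

theorem bdT_hoT_zero (h0 : ∀ z, degT (f 0 z) = degT (g 0 z)) (z : Tup K 0) :
    bdT (hoT f g c 0 z) = g 0 z - f 0 z := by
  have : (bdT (K := K')).comp (hoT f g c 0) = g 0 - f 0 := by
    apply tup_ext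
    intro v
    simp only [LinearMap.comp_apply, hoT_single, one_smul, LinearMap.sub_apply]
    rw [hoS_zero, bdT_coneT_zero, map_sub, h0, sub_self, zero_smul, sub_zero]
  exact LinearMap.congr_fun this z

theorem bdT_hoT (h0 : ∀ z, degT (f 0 z) = degT (g 0 z))
    (hf : ∀ n z, bdT (f (n + 1) z) = f n (bdT z)) (hg : ∀ n z, bdT (g (n + 1) z) = g n (bdT z))
    (n : ℕ) : ∀ z : Tup K (n + 1),
      bdT (hoT f g c (n + 1) z) + hoT f g c n (bdT z) = g _ z - f _ z := by
  induction n with
  | zero =>
    intro z
    have : (bdT (K := K')).comp (hoT f g c 1) + (hoT f g c 0).comp bdT = g 1 - f 1 := by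
      apply tup_ext
      intro v
      simp only [LinearMap.comp_apply, hoT_single, one_smul, LinearMap.sub_apply,
        LinearMap.add_apply, bdT_single]
      have h2 : bdT (g 1 (Finsupp.single v 1) - f 1 (Finsupp.single v 1) -
          hoT f g c 0 (bdTS v)) = 0 := by
        rw [map_sub, map_sub, bdT_hoT_zero f g c h0, hf, hg, bdT_single, one_smul, sub_self]
      rw [hoS_succ, bdT_coneT, h2, map_zero]
      abel
    exact LinearMap.congr_fun this z
  | succ n ih =>
    intro z
    have : (bdT (K := K')).comp (hoT f g c (n + 2)) + (hoT f g c (n + 1)).comp bdT =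
        g (n + 2) - f (n + 2) := by
      apply tup_ext
      intro v
      simp only [LinearMap.comp_apply, hoT_single, one_smul, LinearMap.sub_apply,
        LinearMap.add_apply, bdT_single]
      have h1 := ih (bdTS v)
      rw [bdT_bdTS, map_zero, add_zero] at h1
      have h2 : bdT (g (n + 2) (Finsupp.single v 1) - f (n + 2) (Finsupp.single v 1) -
          hoT f g c (n + 1) (bdTS v)) = 0 := by
        rw [map_sub, map_sub, h1, hf, hg, bdT_single, one_smul, sub_self]
      rw [hoS_succ, bdT_coneT, h2, map_zero]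
      abel
    exact LinearMap.congr_fun this z

end

theorem hoT_natural {L L' : Type*} (f g : ∀ n, Tup K n →ₗ[ℚ] Tup K' n)
    (c : ∀ n, (Fin (n + 1) → K) → K') (f' g' : ∀ n, Tup L n →ₗ[ℚ] Tup L' n)
    (c' : ∀ n, (Fin (n + 1) → L) → L') (p : K → L) (q : K' → L')
    (hf : ∀ n z, mapT q (f n z) = f' n (mapT p z)) (hg : ∀ n z, mapT q (g n z) = g' n (mapT p z))
    (hc : ∀ n v, q (c n v) = c' n (p ∘ v)) (n : ℕ) :
    ∀ z : Tup K n, mapT q (hoT f g c n z) = hoT f' g' c' n (mapT p z) := by
  induction n with
  | zero =>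
    intro z
    have : (mapT q).comp (hoT f g c 0) = (hoT f' g' c' 0).comp (mapT p) := by
      apply tup_ext
      intro v
      simp only [LinearMap.comp_apply, hoT_single, mapT_single, one_smul]
      rw [hoS_zero, mapT_coneT, map_sub, hf, hg, hc, mapT_single, hoS_zero]
    exact LinearMap.congr_fun this z
  | succ n ih =>
    intro z
    have : (mapT q).comp (hoT f g c (n + 1)) = (hoT f' g' c' (n + 1)).comp (mapT p) := by
      apply tup_ext
      intro v
      simp only [LinearMap.comp_apply, hoT_single, mapT_single, one_smul]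
      have h1 : mapT p (bdTS v) = bdTS (p ∘ v) := by
        have := mapT_bdT p (Finsupp.single v (1 : ℚ))
        simpa using this
      rw [hoS_succ, mapT_coneT, map_sub (mapT q), map_sub (mapT q), hf, hg, hc, mapT_single,
        hoS_succ, ih, h1]
    exact LinearMap.congr_fun this z

end

end Pool.Agent.Lib.MP_ee7b66_ag.Top
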